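import Mathlib

set_option autoImplicit false

open MvPolynomial

namespace Pool.Agent.TH177.EC

/-- countably many nonzero complex polynomials have a common non-zero -/
theorem exists_common_nonzero {ι : Type} [Fintype ι] (P : ℕ → MvPolynomial ι ℂ)
    (hP : ∀ n, P n ≠ 0) : ∃ c : ι → ℂ, ∀ n, eval c (P n) ≠ 0 := by
  have h1 : ∀ n, IsOpen {c : ι → ℂ | eval c (P n) ≠ 0} := fun n =>
    isOpen_ne_fun (MvPolynomial.continuous_eval (P n)) continuous_const
  have h2 : ∀ n, Dense {c : ι → ℂ | eval c (P n) ≠ 0} := by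
    intro n
    rw [dense_iff_inter_open]
    intro U hU hUne
    by_contra hcon
    rw [Set.not_nonempty_iff_eq_empty] at hcon
    obtain ⟨x, hx⟩ := hUne
    obtain ⟨ε, hε, hb⟩ := Metric.isOpen_iff.mp hU x hx
    apply hP n
    refine MvPolynomial.funext_set (fun i => Metric.ball (x i) ε) ?_ ?_
    · intro i
      exact infinite_of_mem_nhds (x i) (Metric.ball_mem_nhds _ hε)
    · intro c hc
      have h3 : c ∈ U := by
        apply hb
        rw [ball_pi x hε]
        exact hc
      have h4 : c ∉ {c : ι → ℂ | eval c (P n) ≠ 0} := by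
        intro h5
        have : c ∈ U ∩ {c : ι → ℂ | eval c (P n) ≠ 0} := ⟨h3, h5⟩
        rw [hcon] at this
        exact this
      simp only [Set.mem_ofPred_eq, not_not] at h4
      rw [h4, map_zero]
  have h3 := dense_iInter_of_isOpen h1 h2
  obtain ⟨c, hc⟩ := h3.nonempty
  exact ⟨c, fun n => Set.mem_iInter.mp hc n⟩

end Pool.Agent.TH177.EC
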