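import Pool.Agent.TH177.EC.Defs

set_option autoImplicit false

open scoped LinearAlgebra.Projectivization
open MvPolynomial

namespace Pool.Agent.TH177.EC

/-! ### The tensor product of two vectors -/

theorem segre_ne_zero {s : Fin 2 → ℂ} {y : Fin 4 → ℂ} (hs : s ≠ 0) (hy : y ≠ 0) :
    segre s y ≠ 0 := by
  obtain ⟨i, hi⟩ := Function.ne_iff.mp hs
  obtain ⟨j, hj⟩ := Function.ne_iff.mp hy
  intro h
  have := congrFun h (i, j)
  simp only [segre, Pi.zero_apply, mul_eq_zero] at this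
  rcases this with h | h
  · exact hi h
  · exact hj h

theorem left_ne_zero {s : Fin 2 → ℂ} {y : Fin 4 → ℂ} (h : segre s y ≠ 0) : s ≠ 0 := by
  rintro rfl
  apply h; funext p; simp [segre]

theorem right_ne_zero {s : Fin 2 → ℂ} {y : Fin 4 → ℂ} (h : segre s y ≠ 0) : y ≠ 0 := by
  rintro rfl
  apply h; funext p; simp [segre]

theorem segre_smul_left (a : ℂ) (s : Fin 2 → ℂ) (y : Fin 4 → ℂ) :
    segre (a • s) y = a • segre s y := by
  funext p; simp [segre, mul_assoc]

/-- equality of tensors -/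
theorem segre_eq {s s' : Fin 2 → ℂ} {y y' : Fin 4 → ℂ} (h : segre s y ≠ 0)
    (he : segre s y = segre s' y') : ∃ a : ℂ, a ≠ 0 ∧ s = a • s' ∧ y' = a • y := by
  obtain ⟨i, hi⟩ := Function.ne_iff.mp (left_ne_zero h)
  obtain ⟨j, hj⟩ := Function.ne_iff.mp (right_ne_zero h)
  have h' : segre s' y' ≠ 0 := he ▸ h
  simp only [Pi.zero_apply] at hi hj
  have e := fun p q => congrFun he (p, q)
  simp only [segre] at e
  have hij : s' i * y' j ≠ 0 := by rw [← e]; exact mul_ne_zero hi hj
  have hsi : s' i ≠ 0 := left_ne_zero_of_mul hij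
  have hyj : y' j ≠ 0 := right_ne_zero_of_mul hij
  refine ⟨y' j / y j, div_ne_zero hyj hj, ?_, ?_⟩
  · funext p
    simp only [Pi.smul_apply, smul_eq_mul]
    have := e p j
    field_simp
    rw [this]; ring
  · funext q
    simp only [Pi.smul_apply, smul_eq_mul]
    have h1 := e i j
    have h2 := e i q
    have h3 : y' j / y j = s i / s' i := by
      rw [div_eq_div_iff hj hsi]; rw [h1]; ring
    rw [h3]
    field_simp
    rw [h2]; ring

/-- membership in the cone only depends on the point -/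
theorem mem_cone_smul {ι : Type} {S : Set (PS ι)} {v : ι → ℂ} (hv : v ∈ cone S) {a : ℂ}
    (ha : a ≠ 0) : a • v ∈ cone S := by
  obtain ⟨h, hS⟩ := hv
  refine ⟨smul_ne_zero ha h, ?_⟩
  have : Projectivization.mk ℂ (a • v) (smul_ne_zero ha h) = Projectivization.mk ℂ v h := by
    rw [Projectivization.mk_eq_mk_iff']
    exact ⟨a, rfl⟩
  rw [this]; exact hS

theorem exists_of_mem_cone {C : Set (PS (Fin 2 × Fin 4))} (hC : C ⊆ Y) {v : Fin 2 × Fin 4 → ℂ}
    (hv : v ∈ cone C) : ∃ s y, v = segre s y := by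
  obtain ⟨h, hS⟩ := hv
  obtain ⟨s, y, h1, h2⟩ := hC hS
  rw [Projectivization.mk_eq_mk_iff'] at h2
  obtain ⟨a, ha⟩ := h2
  exact ⟨a • s, y, by rw [segre_smul_left, ha]⟩

/-- The pairs `(s, y)` over the points of `C`. -/
def hat (C : Set (PS (Fin 2 × Fin 4))) : Set ((Fin 2 → ℂ) × (Fin 4 → ℂ)) :=
  {p | segre p.1 p.2 ∈ cone C}

theorem hat_ne {C : Set (PS (Fin 2 × Fin 4))} {p} (hp : p ∈ hat C) : segre p.1 p.2 ≠ 0 := hp.1

/-- The bihomogeneous monomials as functions. -/
noncomputable def mon (α : Fin 2 → ℕ) (β : Fin 4 → ℕ) (p : (Fin 2 → ℂ) × (Fin 4 → ℂ)) : ℂ :=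
  (∏ i, p.1 i ^ α i) * ∏ j, p.2 j ^ β j

theorem mon_mul (α α' : Fin 2 → ℕ) (β β' : Fin 4 → ℕ) :
    mon (α + α') (β + β') = mon α β * mon α' β' := by
  funext p
  simp only [mon, Pi.mul_apply, Pi.add_apply, pow_add, Finset.prod_mul_distrib]
  ring

/-- The bihomogeneous functions of bidegree `(m, n)`. -/
def Wt (m n : ℕ) : Submodule ℂ ((Fin 2 → ℂ) × (Fin 4 → ℂ) → ℂ) :=
  Submodule.span ℂ {f | ∃ (α : Fin 2 → ℕ) (β : Fin 4 → ℕ), ∑ i, α i = m ∧ ∑ j, β j = n ∧
    f = mon α β}

theorem mon_mem {α : Fin 2 → ℕ} {β : Fin 4 → ℕ} {m n : ℕ} (h1 : ∑ i, α i = m)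
    (h2 : ∑ j, β j = n) : mon α β ∈ Wt m n :=
  Submodule.subset_span ⟨α, β, h1, h2, rfl⟩

theorem Wt_mul {m n m' n' : ℕ} {f g : (Fin 2 → ℂ) × (Fin 4 → ℂ) → ℂ} (hf : f ∈ Wt m n)
    (hg : g ∈ Wt m' n') : f * g ∈ Wt (m + m') (n + n') := by
  unfold Wt at hf
  induction hf using Submodule.span_induction with
  | mem f hf =>
    obtain ⟨α, β, h1, h2, rfl⟩ := hf
    unfold Wt at hg
    induction hg using Submodule.span_induction with
    | mem g hg =>
      obtain ⟨α', β', h1', h2', rfl⟩ := hg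
      rw [← mon_mul]
      apply mon_mem
      · simp only [Pi.add_apply, Finset.sum_add_distrib, h1, h1']
      · simp only [Pi.add_apply, Finset.sum_add_distrib, h2, h2']
    | zero => rw [mul_zero]; exact zero_mem _
    | add a b _ _ ha hb => rw [mul_add]; exact add_mem ha hb
    | smul c a _ ha => rw [mul_smul_comm]; exact Submodule.smul_mem _ _ ha
  | zero => rw [zero_mul]; exact zero_mem _
  | add a b _ _ ha hb => rw [add_mul]; exact add_mem ha hb
  | smul c a _ ha => rw [smul_mul_assoc]; exact Submodule.smul_mem _ _ ha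

/-- the finite set of exponents -/
theorem exps_finite (k : ℕ) {ι : Type} [Fintype ι] : {α : ι → ℕ | ∑ i, α i = k}.Finite := by
  classical
  apply (Set.Finite.pi' (fun _ : ι => Set.finite_Iic k)).subset
  intro α hα i
  simp only [Set.mem_ofPred_eq] at hα
  simp only [Set.mem_Iic]
  rw [← hα]
  exact Finset.single_le_sum (fun _ _ => Nat.zero_le _) (Finset.mem_univ i)

instance (m n : ℕ) : FiniteDimensional ℂ (Wt m n) := by
  unfold Wt
  apply FiniteDimensional.span_of_finite
  have h1 := (exps_finite m (ι := Fin 2)).prod (exps_finite n (ι := Fin 4))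
  refine (h1.image (fun q => mon q.1 q.2)).subset ?_
  rintro f ⟨α, β, h1, h2, rfl⟩
  exact ⟨(α, β), ⟨h1, h2⟩, rfl⟩

/-- The restriction of functions to `hat C`. -/
noncomputable def res (C : Set (PS (Fin 2 × Fin 4))) :
    ((Fin 2 → ℂ) × (Fin 4 → ℂ) → ℂ) →ₗ[ℂ] (hat C → ℂ) :=
  LinearMap.funLeft ℂ ℂ Subtype.val

theorem res_apply (C : Set (PS (Fin 2 × Fin 4))) (f) (p : hat C) : res C f p = f p.1 := rfl

theorem res_eq_zero {C : Set (PS (Fin 2 × Fin 4))} {f} : res C f = 0 ↔ ∀ p ∈ hat C, f p = 0 := by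
  constructor
  · intro h p hp
    exact congrFun h ⟨p, hp⟩
  · intro h
    funext p
    exact h p.1 p.2

/-- The bihomogeneous functions of bidegree `(m, n)` on `C`. -/
noncomputable def W (C : Set (PS (Fin 2 × Fin 4))) (m n : ℕ) : Submodule ℂ (hat C → ℂ) :=
  (Wt m n).map (res C)

instance (C : Set (PS (Fin 2 × Fin 4))) (m n : ℕ) : FiniteDimensional ℂ (W C m n) := by
  unfold W; infer_instance

noncomputable def w (C : Set (PS (Fin 2 × Fin 4))) (m n : ℕ) : ℕ := Module.finrank ℂ (W C m n)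

/-! ### General monomial maps -/

/-- A monomial map with coordinates indexed by `κ`. -/
structure MMap (κ : Type) (a b : ℕ) where
  A : κ → Fin 2 → ℕ
  B : κ → Fin 4 → ℕ
  dec : ∀ (k : ℕ) (α : Fin 2 → ℕ) (β : Fin 4 → ℕ), ∑ i, α i = k * a → ∑ j, β j = k * b →
    ∃ γ : Multiset κ, γ.card = k ∧ (γ.map A).sum = α ∧ (γ.map B).sum = β
  hA : ∀ q, ∑ i, A q i = a
  hB : ∀ q, ∑ j, B q j = b

variable {κ : Type} {a b : ℕ}

/-- the values of the monomial map -/
noncomputable def MMap.val (T : MMap κ a b) (p : (Fin 2 → ℂ) × (Fin 4 → ℂ)) : κ → ℂ :=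
  fun q => mon (T.A q) (T.B q) p

theorem MMap.eval_mem [Fintype κ] (T : MMap κ a b) (k : ℕ) (f : MvPolynomial κ ℂ)
    (hf : f.IsHomogeneous k) : (fun p => eval (T.val p) f) ∈ Wt (k * a) (k * b) := by
  classical
  have h1 : (fun p => eval (T.val p) f) = ∑ d ∈ f.support, coeff d f •
      (fun p => ∏ q, T.val p q ^ d q) := by
    funext p
    rw [eval_eq']
    simp [Finset.sum_apply]
  rw [h1]
  apply Submodule.sum_mem
  intro d hd
  apply Submodule.smul_mem
  have hdeg : ∑ q, d q = k := by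
    have := hf (mem_support_iff.mp hd)
    rw [Finsupp.weight_apply, Finsupp.sum_fintype _ _ (by simp)] at this
    simpa using this
  have h2 : (fun p => ∏ q, T.val p q ^ d q) = mon (∑ q, d q • T.A q) (∑ q, d q • T.B q) := by
    funext p
    simp only [MMap.val, mon, Finset.sum_apply, Pi.smul_apply, smul_eq_mul]
    simp only [mul_pow, Finset.prod_mul_distrib, ← Finset.prod_pow, ← pow_mul]
    rw [Finset.prod_comm, Finset.prod_comm (s := Finset.univ (α := κ)) (t := Finset.univ (α := Fin 4))]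
    congr 1
    · apply Finset.prod_congr rfl
      intro i _
      rw [← Finset.prod_pow_eq_pow_sum]
      apply Finset.prod_congr rfl
      intro q _
      rw [mul_comm]
    · apply Finset.prod_congr rfl
      intro i _
      rw [← Finset.prod_pow_eq_pow_sum]
      apply Finset.prod_congr rfl
      intro q _
      rw [mul_comm]
  rw [h2]
  apply mon_mem
  · simp only [Finset.sum_apply, Pi.smul_apply, smul_eq_mul]
    rw [Finset.sum_comm]
    simp only [← Finset.mul_sum, T.hA, ← Finset.sum_mul, hdeg]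
  · simp only [Finset.sum_apply, Pi.smul_apply, smul_eq_mul]
    rw [Finset.sum_comm]
    simp only [← Finset.mul_sum, T.hB, ← Finset.sum_mul, hdeg]

theorem MMap.exists_form (T : MMap κ a b) (k : ℕ) (f : (Fin 2 → ℂ) × (Fin 4 → ℂ) → ℂ)
    (hf : f ∈ Wt (k * a) (k * b)) :
    ∃ F : MvPolynomial κ ℂ, F.IsHomogeneous k ∧ ∀ p, eval (T.val p) F = f p := by
  unfold Wt at hf
  induction hf using Submodule.span_induction with
  | mem f hf =>
    obtain ⟨α, β, h1, h2, rfl⟩ := hf
    obtain ⟨γ, h3, h4, h5⟩ := T.dec k α β h1 h2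
    refine ⟨(γ.map X).prod, ?_, ?_⟩
    · rw [← h3]
      clear h3 h4 h5
      induction γ using Multiset.induction_on with
      | empty => simpa using isHomogeneous_one _ _
      | cons q γ ih =>
        rw [Multiset.map_cons, Multiset.prod_cons, Multiset.card_cons, add_comm]
        exact (isHomogeneous_X ℂ q).mul ih
    · intro p
      rw [← h4, ← h5]
      clear h3 h4 h5
      induction γ using Multiset.induction_on with
      | empty => simp [mon]
      | cons q γ ih =>
        rw [Multiset.map_cons, Multiset.prod_cons, map_mul, ih, eval_X, Multiset.map_cons,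
          Multiset.sum_cons, Multiset.map_cons, Multiset.sum_cons, mon_mul]
        rfl
  | zero => exact ⟨0, isHomogeneous_zero _ _ _, fun p => by simp⟩
  | add f g _ _ hf hg =>
    obtain ⟨F, h1, h2⟩ := hf
    obtain ⟨G, h3, h4⟩ := hg
    exact ⟨F + G, h1.add h3, fun p => by rw [map_add, h2, h4]; rfl⟩
  | smul c f _ hf =>
    obtain ⟨F, h1, h2⟩ := hf
    refine ⟨C c * F, ?_, fun p => by rw [map_mul, h2, eval_C]; rfl⟩
    have := (isHomogeneous_C κ c).mul h1
    rwa [zero_add] at this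

/-- The Hilbert function of the image of `C` under a monomial map. -/
theorem MMap.hilb_eq [Fintype κ] (T : MMap κ a b) (C : Set (PS (Fin 2 × Fin 4))) (D : Set (PS κ))
    (hD : ∀ v, v ∈ cone D ↔ ∃ p ∈ hat C, v = T.val p) (k : ℕ) :
    hilb D k = w C (k * a) (k * b) := by
  classical
  let e : hat C → cone D := fun p => ⟨T.val p.1, (hD _).mpr ⟨p.1, p.2, rfl⟩⟩
  have he : Function.Surjective e := by
    rintro ⟨v, hv⟩
    obtain ⟨p, hp, rfl⟩ := (hD _).mp hv
    exact ⟨⟨p, hp⟩, rfl⟩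
  let L : (cone D → ℂ) →ₗ[ℂ] (hat C → ℂ) := LinearMap.funLeft ℂ ℂ e
  have hL : Function.Injective L := LinearMap.funLeft_injective_of_surjective ℂ ℂ e he
  have h1 : ((homogeneousSubmodule κ ℂ k).map (restr D)).map L = W C (k * a) (k * b) := by
    ext g
    constructor
    · rintro ⟨_, ⟨f, hf, rfl⟩, rfl⟩
      exact ⟨fun p => eval (T.val p) f, T.eval_mem k f hf, rfl⟩
    · rintro ⟨f, hf, rfl⟩
      obtain ⟨F, h1, h2⟩ := T.exists_form k f hf
      refine ⟨restr D F, ⟨F, h1, rfl⟩, ?_⟩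
      funext p
      exact h2 p.1
  unfold hilb w
  rw [← h1]
  exact (Submodule.equivMapOfInjective L hL _).finrank_eq

end Pool.Agent.TH177.EC
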