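import Mathlib

/-!
# One-cycles, numerical equivalence and effective cones of complex projective varieties

Projective varieties are given as sets of points of complex projective spaces. The coordinates of a
projective space are indexed by a finite type. Numerical equivalence of one-cycles is tested
against the very ample line bundles, which generate the Picard group of a projective variety: the
intersection number of a curve `C` with the line bundle which defines an embedding `φ` is the degree
of the curve `φ(C)`.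
-/

set_option autoImplicit false

open scoped LinearAlgebra.Projectivization

namespace Pool.Agent.TH177.EC

/-- The complex projective space with homogeneous coordinates indexed by `ι`. -/
abbrev PS (ι : Type) : Type := ℙ ℂ (ι → ℂ)

/-- The affine cone, without the origin, over a set of points of a projective space. -/
def cone {ι : Type} (S : Set (PS ι)) : Set (ι → ℂ) :=
  {v | ∃ h : v ≠ 0, Projectivization.mk ℂ v h ∈ S}

/-- Zariski closed subsets of a projective space: zero sets of sets of homogeneous polynomials. -/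
def IsClosedSet {ι : Type} (S : Set (PS ι)) : Prop :=
  ∃ T : Set (MvPolynomial ι ℂ), (∀ f ∈ T, ∃ n : ℕ, f.IsHomogeneous n) ∧
    ∀ v : ι → ℂ, v ≠ 0 → (v ∈ cone S ↔ ∀ f ∈ T, MvPolynomial.eval v f = 0)

/-- Irreducible curves: infinite Zariski closed sets all of whose proper Zariski closed subsets are
finite. -/
def IsCurve {ι : Type} (C : Set (PS ι)) : Prop :=
  IsClosedSet C ∧ C.Infinite ∧ ∀ D : Set (PS ι), D ⊆ C → D ≠ C → IsClosedSet D → D.Finite

/-- The restriction of polynomials to the affine cone over `S`. -/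
noncomputable def restr {ι : Type} (S : Set (PS ι)) :
    MvPolynomial ι ℂ →ₗ[ℂ] (cone S → ℂ) where
  toFun f v := MvPolynomial.eval v.1 f
  map_add' f g := by ext v; simp
  map_smul' c f := by ext v; simp

/-- The Hilbert function of `S`: the dimension of the space of the restrictions to `S` of the
forms of degree `k`. -/
noncomputable def hilb {ι : Type} (S : Set (PS ι)) (k : ℕ) : ℕ :=
  Module.finrank ℂ ↥((MvPolynomial.homogeneousSubmodule ι ℂ k).map (restr S))

/-- The degree of a projective curve: the leading coefficient of the Hilbert polynomial, that is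
the limit of `hilb C k / k` for `k` tending to infinity. -/
noncomputable def degree {ι : Type} (C : Set (PS ι)) : ℝ :=
  (Filter.limsup (fun k : ℕ => (hilb C k : ENNReal) / (k : ENNReal)) Filter.atTop).toReal

/-- `φ` is a regular map on `S`: near every point of `S` it is given by forms of one degree. -/
def IsRegularOn {ι κ : Type} (S : Set (PS ι)) (φ : PS ι → PS κ) : Prop :=
  ∀ x ∈ cone S, ∃ (e : ℕ) (g : κ → MvPolynomial ι ℂ), (∀ j, (g j).IsHomogeneous e) ∧
    (fun j => MvPolynomial.eval x (g j)) ≠ 0 ∧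
    ∀ (v : ι → ℂ) (hv : v ≠ 0), v ∈ cone S →
      ∀ h : (fun j => MvPolynomial.eval v (g j)) ≠ 0,
        φ (Projectivization.mk ℂ v hv) = Projectivization.mk ℂ _ h

/-- `φ` is an embedding of `S`, that is an isomorphism of `S` onto its image. -/
def IsEmbeddingOn {ι κ : Type} (S : Set (PS ι)) (φ : PS ι → PS κ) : Prop :=
  IsRegularOn S φ ∧ ∃ ψ : PS κ → PS ι, IsRegularOn (φ '' S) ψ ∧ ∀ x ∈ S, ψ (φ x) = x

/-- The one-cycles with real coefficients on `S`. -/
abbrev Cycles {ι : Type} (S : Set (PS ι)) : Type :=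
  {C : Set (PS ι) // IsCurve C ∧ C ⊆ S} →₀ ℝ

/-- The degree of the pull-back of `O(1)` under `φ` on a one-cycle, for an embedding `φ`. -/
noncomputable def cycleDegree {ι κ : Type} (S : Set (PS ι)) (φ : PS ι → PS κ) :
    Cycles S →ₗ[ℝ] ℝ :=
  Finsupp.lsum ℝ fun C => (LinearMap.id : ℝ →ₗ[ℝ] ℝ).smulRight (degree (φ '' C.1))

/-- The one-cycles on `S` which are numerically equivalent to zero: all very ample line bundles
on `S` have degree zero on them. -/
noncomputable def numTrivial {ι : Type} (S : Set (PS ι)) : Submodule ℝ (Cycles S) :=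
  ⨅ (κ : Type) (_ : Fintype κ) (φ : PS ι → PS κ) (_ : IsEmbeddingOn S φ),
    LinearMap.ker (cycleDegree S φ)

/-- The real vector space `N₁(S)` of one-cycles modulo numerical equivalence. -/
abbrev N1 {ι : Type} (S : Set (PS ι)) : Type := Cycles S ⧸ numTrivial S

/-- The effective (or pseudoeffective) cone `Eff₁(S)`: the closure of the cone spanned by the
classes of curves. The topology is the natural topology of the real vector space. -/
noncomputable def Eff1 {ι : Type} (S : Set (PS ι)) : Set (N1 S) :=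
  @closure (N1 S) (moduleTopology ℝ (N1 S))
    ((numTrivial S).mkQ '' {α : Cycles S | ∀ C, 0 ≤ α C})

/-- The curves on `X`, seen as curves on `Y`. -/
def inclCurve {ι : Type} {X Y : Set (PS ι)} (h : X ⊆ Y) :
    {C : Set (PS ι) // IsCurve C ∧ C ⊆ X} → {C : Set (PS ι) // IsCurve C ∧ C ⊆ Y} :=
  fun C => ⟨C.1, C.2.1, C.2.2.trans h⟩

/-- The push-forward of one-cycles under the inclusion of `X` in `Y`. -/
noncomputable def pushCycles {ι : Type} {X Y : Set (PS ι)} (h : X ⊆ Y) :
    Cycles X →ₗ[ℝ] Cycles Y :=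
  Finsupp.lmapDomain ℝ ℝ (inclCurve h)

theorem IsRegularOn.mono {ι κ : Type} {X Y : Set (PS ι)} (h : X ⊆ Y) {φ : PS ι → PS κ}
    (hφ : IsRegularOn Y φ) : IsRegularOn X φ := by
  intro x hx
  obtain ⟨h0, hx'⟩ := hx
  obtain ⟨e, g, h1, h2, h3⟩ := hφ x ⟨h0, h hx'⟩
  refine ⟨e, g, h1, h2, ?_⟩
  rintro v hv ⟨h4, h5⟩
  exact h3 v hv ⟨h4, h h5⟩

theorem IsEmbeddingOn.mono {ι κ : Type} {X Y : Set (PS ι)} (h : X ⊆ Y) {φ : PS ι → PS κ}
    (hφ : IsEmbeddingOn Y φ) : IsEmbeddingOn X φ := by
  obtain ⟨h1, ψ, h2, h3⟩ := hφ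
  exact ⟨h1.mono h, ψ, h2.mono (Set.image_mono h), fun x hx => h3 x (h hx)⟩

theorem cycleDegree_push {ι κ : Type} {X Y : Set (PS ι)} (h : X ⊆ Y) (φ : PS ι → PS κ)
    (α : Cycles X) : cycleDegree Y φ (pushCycles h α) = cycleDegree X φ α := by
  induction α using Finsupp.induction_linear with
  | zero => simp
  | add f g hf hg => rw [map_add, map_add, map_add, hf, hg]
  | single C a =>
    simp [cycleDegree, pushCycles, inclCurve]

theorem numTrivial_le {ι : Type} {X Y : Set (PS ι)} (h : X ⊆ Y) :
    numTrivial X ≤ (numTrivial Y).comap (pushCycles h) := by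
  intro α hα
  simp only [numTrivial, Submodule.mem_iInf, LinearMap.mem_ker, Submodule.mem_comap] at hα ⊢
  intro κ hκ φ hφ
  rw [cycleDegree_push]
  exact hα κ hκ φ (hφ.mono h)

/-- The push-forward `i_* : N₁(X) → N₁(Y)` for the inclusion `i` of `X` in `Y`. -/
noncomputable def push {ι : Type} {X Y : Set (PS ι)} (h : X ⊆ Y) : N1 X →ₗ[ℝ] N1 Y :=
  Submodule.mapQ (numTrivial X) (numTrivial Y) (pushCycles h) (numTrivial_le h)

/-- The inclusion of `X` in `Y` induces an isomorphism of effective cones in dimension one: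
`i_* : N₁(X) → N₁(Y)` is a linear isomorphism and maps `Eff₁(X)` onto `Eff₁(Y)`. -/
def InducesIso {ι : Type} {X Y : Set (PS ι)} (h : X ⊆ Y) : Prop :=
  Function.Bijective (push h) ∧ push h '' Eff1 X = Eff1 Y

/-- The vector `s ⊗ y`. -/
def segre (s : Fin 2 → ℂ) (y : Fin 4 → ℂ) : Fin 2 × Fin 4 → ℂ := fun p => s p.1 * y p.2

/-- The fourfold `Y = P¹ × P³` in its Segre embedding, which is given by the very ample line
bundle `A = O(1, 1)`. -/
def Y : Set (PS (Fin 2 × Fin 4)) :=
  {x | ∃ (s : Fin 2 → ℂ) (y : Fin 4 → ℂ) (h : segre s y ≠ 0),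
    x = Projectivization.mk ℂ (segre s y) h}

/-- The exponents of the monomials of degree `d` in four variables. -/
abbrev Mon (d : ℕ) : Type := {β : Fin 4 → Fin (d + 1) // ∑ j, (β j : ℕ) = d}

/-- The value at `(s, y)` of the form of bidegree `(d, d)` with coefficients `c`. -/
noncomputable def form {d : ℕ} (c : Fin (d + 1) × Mon d → ℂ) (s : Fin 2 → ℂ) (y : Fin 4 → ℂ) : ℂ :=
  ∑ m : Fin (d + 1) × Mon d,
    c m * (s 0 ^ (m.1 : ℕ) * s 1 ^ (d - (m.1 : ℕ)) * ∏ j, y j ^ (m.2.1 j : ℕ))

/-- The member of the linear system `|dA|` of `Y` given by the form of bidegree `(d, d)` with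
coefficients `c`. -/
def member {d : ℕ} (c : Fin (d + 1) × Mon d → ℂ) : Set (PS (Fin 2 × Fin 4)) :=
  {x | ∃ (s : Fin 2 → ℂ) (y : Fin 4 → ℂ) (h : segre s y ≠ 0),
    x = Projectivization.mk ℂ (segre s y) h ∧ form c s y = 0}

theorem member_subset {d : ℕ} (c : Fin (d + 1) × Mon d → ℂ) : member c ⊆ Y := by
  rintro x ⟨s, y, h, hx, -⟩
  exact ⟨s, y, h, hx⟩

end Pool.Agent.TH177.EC
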