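import Pool.Agent.TH177.EC.Main

set_option autoImplicit false

open scoped LinearAlgebra.Projectivization
open MvPolynomial

namespace Pool.Agent.TH177.EC

/-! ### General coefficients have no common zero -/

theorem exists_big (d : ℕ) (hd : 3 ≤ d) (μ : Mon (4 * d - 3)) : ∃ j, d ≤ (μ.1 j : ℕ) := by
  by_contra h
  push Not at h
  have h1 := μ.2
  rw [Fin.sum_univ_four] at h1
  have := h 0
  have := h 1
  have := h 2
  have := h 3
  omega

/-- the chosen variable -/
noncomputable def jj (d : ℕ) (hd : 3 ≤ d) (μ : Mon (4 * d - 3)) : Fin 4 :=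
  (exists_big d hd μ).choose

theorem jj_spec (d : ℕ) (hd : 3 ≤ d) (μ : Mon (4 * d - 3)) : d ≤ (μ.1 (jj d hd μ) : ℕ) :=
  (exists_big d hd μ).choose_spec

/-- the corresponding coefficient -/
def ii (d : ℕ) (hd : 3 ≤ d) (j : Fin 4) : Fin (d + 1) := ⟨j, by omega⟩

/-- the relation of exponents -/
def Rel (d : ℕ) (j : Fin 4) (μ ν : Mon (4 * d - 3)) (β : Mon d) : Prop :=
  ∀ k, (ν.1 k : ℕ) + (if k = j then d else 0) = μ.1 k + β.1 k

open Classical in
/-- the square matrix -/
noncomputable def MM (d : ℕ) (hd : 3 ≤ d) :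
    Matrix (Mon (4 * d - 3)) (Mon (4 * d - 3)) (MvPolynomial (Fin (d + 1) × Mon d) ℂ) :=
  fun μ ν => ∑ β : Mon d, if Rel d (jj d hd μ) μ ν β then X (ii d hd (jj d hd μ), β) else 0

/-- the discriminant -/
noncomputable def Del (d : ℕ) (hd : 3 ≤ d) : MvPolynomial (Fin (d + 1) × Mon d) ℂ := (MM d hd).det

open Classical in
theorem MM_eval (d : ℕ) (hd : 3 ≤ d) (c : Fin (d + 1) × Mon d → ℂ) (μ ν : Mon (4 * d - 3)) :
    eval c (MM d hd μ ν) =
      ∑ β : Mon d, if Rel d (jj d hd μ) μ ν β then c (ii d hd (jj d hd μ), β) else 0 := by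
  unfold MM
  rw [map_sum]
  apply Finset.sum_congr rfl
  intro β _
  split_ifs <;> simp

theorem Del_eval (d : ℕ) (hd : 3 ≤ d) (c : Fin (d + 1) × Mon d → ℂ) :
    eval c (Del d hd) = (Matrix.of fun μ ν => eval c (MM d hd μ ν)).det := by
  unfold Del
  rw [RingHom.map_det]
  rfl

/-- the exponent of the product -/
def nu (d : ℕ) (_hd : 3 ≤ d) (j : Fin 4) (μ : Mon (4 * d - 3)) (hj : d ≤ (μ.1 j : ℕ)) (β : Mon d) :
    Mon (4 * d - 3) := by
  have hs : ∑ k, ((μ.1 k : ℕ) + β.1 k - (if k = j then d else 0)) = 4 * d - 3 := by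
    have h1 : ∑ k, (((μ.1 k : ℕ) + β.1 k - (if k = j then d else 0)) + (if k = j then d else 0)) =
        ∑ k, ((μ.1 k : ℕ) + β.1 k) := by
      apply Finset.sum_congr rfl
      intro k _
      split_ifs with h
      · subst h; omega
      · omega
    rw [Finset.sum_add_distrib, Finset.sum_add_distrib, μ.2, β.2] at h1
    have h2 : ∑ k : Fin 4, (if k = j then d else 0) = d := by simp
    rw [h2] at h1
    omega
  refine ⟨fun k => ⟨(μ.1 k : ℕ) + β.1 k - (if k = j then d else 0), ?_⟩, hs⟩
  have := Finset.single_le_sum (f := fun k => ((μ.1 k : ℕ) + β.1 k - (if k = j then d else 0)))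
    (fun _ _ => Nat.zero_le _) (Finset.mem_univ k)
  rw [hs] at this
  exact Nat.lt_succ_of_le this

theorem nu_apply (d : ℕ) (hd : 3 ≤ d) (j : Fin 4) (μ : Mon (4 * d - 3)) (hj : d ≤ (μ.1 j : ℕ))
    (β : Mon d) (k : Fin 4) :
    ((nu d hd j μ hj β).1 k : ℕ) = (μ.1 k : ℕ) + β.1 k - (if k = j then d else 0) := rfl

theorem rel_iff (d : ℕ) (hd : 3 ≤ d) (j : Fin 4) (μ ν : Mon (4 * d - 3)) (hj : d ≤ (μ.1 j : ℕ))
    (β : Mon d) : Rel d j μ ν β ↔ ν = nu d hd j μ hj β := by
  constructor
  · intro h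
    apply Subtype.ext
    funext k
    apply Fin.ext
    have := h k
    rw [nu_apply]
    omega
  · rintro rfl k
    rw [nu_apply]
    split_ifs with h
    · subst h; omega
    · omega

theorem pow_eq_zero_iff_aux {a : ℂ} {n : ℕ} (h : a ^ n = 0) : a = 0 := by
  by_contra h0
  exact pow_ne_zero n h0 h

theorem no_common_zero (d : ℕ) (hd : 3 ≤ d) (c : Fin (d + 1) × Mon d → ℂ)
    (hc : eval c (Del d hd) ≠ 0) (y : Fin 4 → ℂ) (hy : y ≠ 0) : ∃ i, cf c i y ≠ 0 := by
  classical
  by_contra hcon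
  push Not at hcon
  rw [Del_eval] at hc
  apply hc
  rw [← Matrix.exists_mulVec_eq_zero_iff]
  refine ⟨fun ν => ∏ k, y k ^ (ν.1 k : ℕ), ?_, ?_⟩
  · obtain ⟨k, hk⟩ := Function.ne_iff.mp hy
    intro h
    let ν : Mon (4 * d - 3) := ⟨fun l => if l = k then Fin.last _ else 0, by
      rw [Finset.sum_eq_single k]
      · simp
      · intro l _ hl; simp [hl]
      · simp⟩
    have h1 := congrFun h ν
    simp only [Pi.zero_apply] at h1
    rw [Finset.prod_eq_zero_iff] at h1
    obtain ⟨l, -, hl⟩ := h1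
    by_cases hlk : l = k
    · subst hlk
      exact hk (pow_eq_zero_iff_aux hl)
    · simp [ν, hlk] at hl
  · funext μ
    rw [Matrix.mulVec, Pi.zero_apply]
    show ∑ ν, eval c (MM d hd μ ν) * ∏ k, y k ^ (ν.1 k : ℕ) = 0
    have hj := jj_spec d hd μ
    have h1 : ∀ ν : Mon (4 * d - 3), eval c (MM d hd μ ν) * ∏ k, y k ^ (ν.1 k : ℕ) =
        ∑ β : Mon d, if ν = nu d hd (jj d hd μ) μ hj β then
          c (ii d hd (jj d hd μ), β) * ∏ k, y k ^ (ν.1 k : ℕ) else 0 := by
      intro ν
      rw [MM_eval, Finset.sum_mul]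
      apply Finset.sum_congr rfl
      intro β _
      rw [rel_iff d hd _ μ ν hj β]
      split_ifs <;> simp
    rw [Finset.sum_congr rfl (fun ν _ => h1 ν), Finset.sum_comm]
    have h2 : ∀ β : Mon d, (∑ ν : Mon (4 * d - 3), if ν = nu d hd (jj d hd μ) μ hj β then
          c (ii d hd (jj d hd μ), β) * ∏ k, y k ^ (ν.1 k : ℕ) else 0) =
        (∏ k, y k ^ ((μ.1 k : ℕ) - (if k = jj d hd μ then d else 0))) *
          (c (ii d hd (jj d hd μ), β) * ∏ k, y k ^ (β.1 k : ℕ)) := by
      intro β
      rw [Finset.sum_ite_eq' Finset.univ, if_pos (Finset.mem_univ _)]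
      rw [mul_left_comm, ← Finset.prod_mul_distrib]
      congr 1
      apply Finset.prod_congr rfl
      intro k _
      rw [nu_apply, ← pow_add]
      congr 1
      split_ifs with h
      · subst h; omega
      · omega
    rw [Finset.sum_congr rfl (fun β _ => h2 β), ← Finset.mul_sum]
    have h3 := hcon (ii d hd (jj d hd μ))
    unfold cf at h3
    rw [h3, mul_zero]

/-- the power of one variable -/
def bb (d : ℕ) (j : Fin 4) : Mon d := ⟨fun l => if l = j then Fin.last _ else 0, by
      rw [Finset.sum_eq_single j]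
      · simp
      · intro l _ hl; simp [hl]
      · simp⟩

theorem Del_ne (d : ℕ) (hd : 3 ≤ d) : Del d hd ≠ 0 := by
  classical
  intro h
  let c : Fin (d + 1) × Mon d → ℂ := fun m =>
    if ∃ j : Fin 4, m.1 = ii d hd j ∧ m.2 = bb d j then 1 else 0
  have h1 : eval c (Del d hd) = 1 := by
    rw [Del_eval]
    have h2 : (Matrix.of fun μ ν => eval c (MM d hd μ ν)) =
        (1 : Matrix (Mon (4 * d - 3)) (Mon (4 * d - 3)) ℂ) := by
      ext μ ν
      have hj := jj_spec d hd μ
      rw [Matrix.of_apply, MM_eval, Finset.sum_eq_single (bb d (jj d hd μ))]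
      · rw [rel_iff d hd _ μ ν hj]
        have h3 : nu d hd (jj d hd μ) μ hj (bb d (jj d hd μ)) = μ := by
          apply Subtype.ext
          funext k
          apply Fin.ext
          rw [nu_apply]
          simp only [bb]
          split_ifs with h
          · simp
          · simp
        rw [h3, Matrix.one_apply]
        by_cases h4 : μ = ν
        · subst h4
          simp only [if_true]
          exact if_pos ⟨jj d hd μ, rfl, rfl⟩
        · rw [if_neg (fun h => h4 h.symm), if_neg h4]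
      · intro β _ hβ
        split_ifs with h4
        · apply if_neg
          rintro ⟨j, hj1, hj2⟩
          have hj3 : jj d hd μ = j := by
            apply Fin.ext
            have := congrArg Fin.val hj1
            exact this
          exact hβ (by rw [hj3]; exact hj2)
        · rfl
      · intro h; exact absurd (Finset.mem_univ _) h
    rw [h2, Matrix.det_one]
  rw [h, map_zero] at h1
  exact zero_ne_one h1

end Pool.Agent.TH177.EC
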