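import Pool.Agent.TH177.EC.Emb

set_option autoImplicit false

open scoped LinearAlgebra.Projectivization
open MvPolynomial

namespace Pool.Agent.TH177.EC

theorem mon_apply_left (i : Fin 2) : (fun p : (Fin 2 → ℂ) × (Fin 4 → ℂ) => p.1 i) ∈ Wt 1 0 := by
  have : (fun p : (Fin 2 → ℂ) × (Fin 4 → ℂ) => p.1 i) = mon (Pi.single i 1) 0 := by
    funext p; rw [mon_single1]
  rw [this]
  exact mon_mem (by simp) (by simp)

theorem mon_apply_right (j : Fin 4) : (fun p : (Fin 2 → ℂ) × (Fin 4 → ℂ) => p.2 j) ∈ Wt 0 1 := by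
  have : (fun p : (Fin 2 → ℂ) × (Fin 4 → ℂ) => p.2 j) = mon 0 (Pi.single j 1) := by
    funext p; rw [mon_single0]
  rw [this]
  exact mon_mem (by simp) (by simp)

theorem Wt_one : (1 : (Fin 2 → ℂ) × (Fin 4 → ℂ) → ℂ) ∈ Wt 0 0 := by
  have : (1 : (Fin 2 → ℂ) × (Fin 4 → ℂ) → ℂ) = mon 0 0 := by
    funext p; simp [mon]
  rw [this]
  exact mon_mem (by simp) (by simp)

theorem Wt_pow {m n : ℕ} {f : (Fin 2 → ℂ) × (Fin 4 → ℂ) → ℂ} (hf : f ∈ Wt m n) (k : ℕ) :
    f ^ k ∈ Wt (k * m) (k * n) := by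
  induction k with
  | zero => simpa using Wt_one
  | succ k ih =>
    rw [pow_succ, add_mul, add_mul, one_mul, one_mul]
    exact Wt_mul ih hf

/-- a bihomogeneous function vanishes or not on a whole fibre, and its zeros are given by forms -/
theorem zero_forms {m n : ℕ} {f : (Fin 2 → ℂ) × (Fin 4 → ℂ) → ℂ} (hf : f ∈ Wt m n) :
    ∃ G : Fin 2 × Fin 4 → MvPolynomial (Fin 2 × Fin 4) ℂ, (∀ q, (G q).IsHomogeneous (m + n)) ∧
      ∀ p : (Fin 2 → ℂ) × (Fin 4 → ℂ), segre p.1 p.2 ≠ 0 →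
        (f p = 0 ↔ ∀ q, eval (segre p.1 p.2) (G q) = 0) := by
  have h1 : ∀ q : Fin 2 × Fin 4, ∃ G : MvPolynomial (Fin 2 × Fin 4) ℂ, G.IsHomogeneous (m + n) ∧
      ∀ p, eval (T11.val p) G = f p * (p.1 q.1 ^ n * p.2 q.2 ^ m) := by
    intro q
    apply T11.exists_form
    have h2 := Wt_mul hf (Wt_mul (Wt_pow (mon_apply_left q.1) n) (Wt_pow (mon_apply_right q.2) m))
    have e1 : m + (n * 1 + m * 0) = (m + n) * 1 := by ring
    have e2 : n + (n * 0 + m * 1) = (m + n) * 1 := by ring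
    rwa [e1, e2] at h2
  choose G hG1 hG2 using h1
  refine ⟨G, hG1, ?_⟩
  intro p hp
  constructor
  · intro h q
    rw [← T11_val, hG2, h, zero_mul]
  · intro h
    obtain ⟨i, j, hi, hj⟩ := exists_coord hp
    have := h (i, j)
    rw [← T11_val, hG2] at this
    simp only [mul_eq_zero] at this
    rcases this with h1 | h1 | h1
    · exact h1
    · exact absurd h1 (pow_ne_zero _ hi)
    · exact absurd h1 (pow_ne_zero _ hj)

/-- The points of `C` at which `f` vanishes. -/
def zer (C : Set (PS (Fin 2 × Fin 4))) (f : (Fin 2 → ℂ) × (Fin 4 → ℂ) → ℂ) :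
    Set (PS (Fin 2 × Fin 4)) :=
  {x | x ∈ C ∧ ∃ (p : (Fin 2 → ℂ) × (Fin 4 → ℂ)) (h : segre p.1 p.2 ≠ 0),
    x = Projectivization.mk ℂ _ h ∧ f p = 0}

theorem zer_subset (C : Set (PS (Fin 2 × Fin 4))) (f) : zer C f ⊆ C := fun _ h => h.1

theorem mem_zer {C : Set (PS (Fin 2 × Fin 4))} {m n : ℕ} {f : (Fin 2 → ℂ) × (Fin 4 → ℂ) → ℂ}
    (hf : f ∈ Wt m n) {p : (Fin 2 → ℂ) × (Fin 4 → ℂ)} (h : segre p.1 p.2 ≠ 0) :
    Projectivization.mk ℂ _ h ∈ zer C f ↔ Projectivization.mk ℂ _ h ∈ C ∧ f p = 0 := by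
  constructor
  · rintro ⟨hC, p', h', he, h0⟩
    refine ⟨hC, ?_⟩
    obtain ⟨G, h1, h2⟩ := zero_forms hf
    rw [h2 p h]
    rw [h2 p' h'] at h0
    rw [Projectivization.mk_eq_mk_iff'] at he
    obtain ⟨c, hc⟩ := he
    intro q
    rw [← hc, eval_smul_hom _ _ (h1 q), h0, mul_zero]
  · rintro ⟨hC, h0⟩
    exact ⟨hC, p, h, rfl, h0⟩

theorem zer_closed {C : Set (PS (Fin 2 × Fin 4))} (hC : C ⊆ Y) (hcl : IsClosedSet C) {m n : ℕ}
    {f : (Fin 2 → ℂ) × (Fin 4 → ℂ) → ℂ} (hf : f ∈ Wt m n) : IsClosedSet (zer C f) := by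
  obtain ⟨T, hT1, hT2⟩ := hcl
  obtain ⟨G, h1, h2⟩ := zero_forms hf
  refine ⟨T ∪ Set.range G, ?_, ?_⟩
  · rintro g (hg | ⟨q, rfl⟩)
    · exact hT1 g hg
    · exact ⟨_, h1 q⟩
  · intro v hv
    constructor
    · rintro ⟨h, hz⟩
      have hvC : v ∈ cone C := ⟨h, hz.1⟩
      obtain ⟨s, y, rfl⟩ := exists_of_mem_cone hC hvC
      rw [mem_zer (p := (s, y)) hf h] at hz
      rintro g (hg | ⟨q, rfl⟩)
      · exact (hT2 _ hv).mp hvC g hg
      · exact (h2 (s, y) h).mp hz.2 q
    · intro h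
      have hvC : v ∈ cone C := (hT2 v hv).mpr (fun g hg => h g (Or.inl hg))
      obtain ⟨s, y, rfl⟩ := exists_of_mem_cone hC hvC
      refine ⟨hv, ?_⟩
      rw [mem_zer (p := (s, y)) hf hv]
      refine ⟨hvC.2, ?_⟩
      rw [h2 (s, y) hv]
      intro q
      exact h _ (Or.inr ⟨q, rfl⟩)

/-- bihomogeneous functions on a curve form a domain -/
theorem dom {C : Set (PS (Fin 2 × Fin 4))} (hC : C ⊆ Y) (hcu : IsCurve C) {m n m' n' : ℕ}
    {f g : (Fin 2 → ℂ) × (Fin 4 → ℂ) → ℂ} (hf : f ∈ Wt m n) (hg : g ∈ Wt m' n')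
    (h : res C (f * g) = 0) : res C f = 0 ∨ res C g = 0 := by
  obtain ⟨hcl, hinf, hfin⟩ := hcu
  have key : ∀ {m n : ℕ} {f : (Fin 2 → ℂ) × (Fin 4 → ℂ) → ℂ}, f ∈ Wt m n → zer C f = C →
      res C f = 0 := by
    intro m n f hf h
    rw [res_eq_zero]
    rintro p ⟨h1, h2⟩
    have h3 := h2
    rw [← h, mem_zer hf h1] at h3
    exact h3.2
  by_cases h1 : zer C f = C
  · left; exact key hf h1
  by_cases h2 : zer C g = C
  · right; exact key hg h2
  exfalso
  have h3 := hfin _ (zer_subset C f) h1 (zer_closed hC hcl hf)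
  have h4 := hfin _ (zer_subset C g) h2 (zer_closed hC hcl hg)
  apply hinf
  refine (h3.union h4).subset ?_
  intro x hx
  obtain ⟨s, y, hsy, rfl⟩ := hC hx
  have h5 := (res_eq_zero.mp h) (s, y) ⟨hsy, hx⟩
  rw [Pi.mul_apply, mul_eq_zero] at h5
  rcases h5 with h5 | h5
  · left; exact ⟨hx, (s, y), hsy, rfl, h5⟩
  · right; exact ⟨hx, (s, y), hsy, rfl, h5⟩

/-- comparison of dimensions by multiplication -/
theorem w_le {C : Set (PS (Fin 2 × Fin 4))} (hC : C ⊆ Y) (hcu : IsCurve C) {m n m' n' a b : ℕ}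
    {f g : (Fin 2 → ℂ) × (Fin 4 → ℂ) → ℂ} (hf : f ∈ Wt a b) (hf0 : res C f ≠ 0)
    (h : ∀ u ∈ Wt m n, ∃ v ∈ Wt m' n', res C (f * u) = res C (g * v)) :
    w C m n ≤ w C m' n' := by
  let L : (hat C → ℂ) →ₗ[ℂ] (hat C → ℂ) := LinearMap.mulLeft ℂ (res C f)
  let L' : (hat C → ℂ) →ₗ[ℂ] (hat C → ℂ) := LinearMap.mulLeft ℂ (res C g)
  have h1 : (W C m n).map L ≤ (W C m' n').map L' := by
    rintro _ ⟨_, ⟨u, hu, rfl⟩, rfl⟩
    obtain ⟨v, hv, he⟩ := h u hu
    exact ⟨res C v, ⟨v, hv, rfl⟩, he.symm⟩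
  have h2 : Module.finrank ℂ ((W C m n).map L) = w C m n := by
    have hinj : Function.Injective (L.domRestrict (W C m n)) := by
      rw [← LinearMap.ker_eq_bot, LinearMap.ker_eq_bot']
      rintro ⟨_, ⟨u, hu, rfl⟩⟩ hx
      have h3 : res C (f * u) = 0 := hx
      rcases dom hC hcu hf hu h3 with h4 | h4
      · exact absurd h4 hf0
      · exact Subtype.ext h4
    have h3 := LinearMap.finrank_range_of_inj hinj
    rwa [LinearMap.range_domRestrict] at h3
  rw [← h2]
  calc Module.finrank ℂ ((W C m n).map L) ≤ Module.finrank ℂ ((W C m' n').map L') :=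
        Submodule.finrank_mono h1
    _ ≤ w C m' n' := Submodule.finrank_map_le _ _

theorem res_mul (C : Set (PS (Fin 2 × Fin 4))) (f g) : res C (f * g) = res C f * res C g := rfl

theorem hat_nonempty {C : Set (PS (Fin 2 × Fin 4))} (hC : C ⊆ Y) (hcu : IsCurve C) :
    (hat C).Nonempty := by
  obtain ⟨x, hx⟩ := hcu.2.1.nonempty
  obtain ⟨s, y, h, rfl⟩ := hC hx
  exact ⟨(s, y), h, hx⟩

theorem exists_left {C : Set (PS (Fin 2 × Fin 4))} (hC : C ⊆ Y) (hcu : IsCurve C) :
    ∃ i : Fin 2, res C (fun p => p.1 i) ≠ 0 := by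
  obtain ⟨p, hp⟩ := hat_nonempty hC hcu
  obtain ⟨i, j, hi, hj⟩ := exists_coord hp.1
  exact ⟨i, fun h => hi (res_eq_zero.mp h p hp)⟩

theorem exists_right {C : Set (PS (Fin 2 × Fin 4))} (hC : C ⊆ Y) (hcu : IsCurve C) :
    ∃ i : Fin 4, res C (fun p => p.2 i) ≠ 0 := by
  obtain ⟨p, hp⟩ := hat_nonempty hC hcu
  obtain ⟨i, j, hi, hj⟩ := exists_coord hp.1
  exact ⟨j, fun h => hj (res_eq_zero.mp h p hp)⟩

theorem w_mono_left {C : Set (PS (Fin 2 × Fin 4))} (hC : C ⊆ Y) (hcu : IsCurve C) (m n : ℕ) :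
    w C m n ≤ w C (m + 1) n := by
  obtain ⟨i, hi⟩ := exists_left hC hcu
  refine w_le hC hcu (g := 1) (mon_apply_left i) hi ?_
  intro u hu
  refine ⟨_, ?_, by rw [one_mul]⟩
  have := Wt_mul (mon_apply_left i) hu
  rwa [zero_add, add_comm 1 m] at this

theorem w_mono_right {C : Set (PS (Fin 2 × Fin 4))} (hC : C ⊆ Y) (hcu : IsCurve C) (m n : ℕ) :
    w C m n ≤ w C m (n + 1) := by
  obtain ⟨i, hi⟩ := exists_right hC hcu
  refine w_le hC hcu (g := 1) (mon_apply_right i) hi ?_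
  intro u hu
  refine ⟨_, ?_, by rw [one_mul]⟩
  have := Wt_mul (mon_apply_right i) hu
  rwa [zero_add, add_comm 1 n] at this

theorem w_mono {C : Set (PS (Fin 2 × Fin 4))} (hC : C ⊆ Y) (hcu : IsCurve C) {m n m' n' : ℕ}
    (hm : m ≤ m') (hn : n ≤ n') : w C m n ≤ w C m' n' :=
  (monotone_nat_of_le_succ (f := fun k => w C k n) (fun k => w_mono_left hC hcu k n) hm).trans
    (monotone_nat_of_le_succ (f := fun k => w C m' k) (fun k => w_mono_right hC hcu m' k) hn)

/-! ### Curves on members of the linear system -/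

/-- The coefficient of `s₀^i s₁^(d-i)` of the form with coefficients `c`. -/
noncomputable def cf {d : ℕ} (c : Fin (d + 1) × Mon d → ℂ) (i : Fin (d + 1)) (y : Fin 4 → ℂ) : ℂ :=
  ∑ β : Mon d, c (i, β) * ∏ j, y j ^ (β.1 j : ℕ)

theorem form_eq {d : ℕ} (c : Fin (d + 1) × Mon d → ℂ) (s : Fin 2 → ℂ) (y : Fin 4 → ℂ) :
    form c s y = ∑ i : Fin (d + 1), cf c i y * s 0 ^ (i : ℕ) * s 1 ^ (d - (i : ℕ)) := by
  unfold form cf
  rw [Fintype.sum_prod_type]
  apply Finset.sum_congr rfl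
  intro i _
  rw [Finset.sum_mul, Finset.sum_mul]
  apply Finset.sum_congr rfl
  intro β _
  ring

theorem cf_mem {d : ℕ} (c : Fin (d + 1) × Mon d → ℂ) (i : Fin (d + 1)) :
    (fun p : (Fin 2 → ℂ) × (Fin 4 → ℂ) => cf c i p.2) ∈ Wt 0 d := by
  have : (fun p : (Fin 2 → ℂ) × (Fin 4 → ℂ) => cf c i p.2) =
      ∑ β : Mon d, c (i, β) • mon 0 (fun j => (β.1 j : ℕ)) := by
    funext p
    simp [cf, mon, Finset.sum_apply]
  rw [this]
  apply Submodule.sum_mem
  intro β _
  exact Submodule.smul_mem _ _ (mon_mem (by simp) β.2)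

theorem form_mem {d : ℕ} (c : Fin (d + 1) × Mon d → ℂ) :
    (fun p : (Fin 2 → ℂ) × (Fin 4 → ℂ) => form c p.1 p.2) ∈ Wt d d := by
  have : (fun p : (Fin 2 → ℂ) × (Fin 4 → ℂ) => form c p.1 p.2) =
      ∑ i : Fin (d + 1), (fun p : (Fin 2 → ℂ) × (Fin 4 → ℂ) => cf c i p.2) *
        ((fun p => p.1 0) ^ (i : ℕ) * (fun p => p.1 1) ^ (d - (i : ℕ))) := by
    funext p
    rw [form_eq]
    simp only [Finset.sum_apply, Pi.mul_apply, Pi.pow_apply, mul_assoc]
  rw [this]
  apply Submodule.sum_mem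
  intro i _
  have h := Wt_mul (cf_mem c i) (Wt_mul (Wt_pow (mon_apply_left 0) (i : ℕ))
    (Wt_pow (mon_apply_left 1) (d - (i : ℕ))))
  have e1 : 0 + ((i : ℕ) * 1 + (d - (i : ℕ)) * 1) = d := by omega
  have e2 : d + ((i : ℕ) * 0 + (d - (i : ℕ)) * 0) = d := by ring
  rwa [e1, e2] at h

theorem form_zero {d : ℕ} (c : Fin (d + 1) × Mon d → ℂ) {C : Set (PS (Fin 2 × Fin 4))}
    (hC : C ⊆ member c) : ∀ p ∈ hat C, form c p.1 p.2 = 0 := by
  rintro p ⟨h, hp⟩
  obtain ⟨s, y, h', he, h0⟩ := hC hp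
  have h1 : Projectivization.mk ℂ _ h' ∈ zer Set.univ (fun p => form c p.1 p.2) :=
    (mem_zer (p := (s, y)) (form_mem c) h').mpr ⟨Set.mem_univ _, h0⟩
  rw [← he] at h1
  exact ((mem_zer (form_mem c) h).mp h1).2

/-- The key inequality. -/
theorem key {d : ℕ} (c : Fin (d + 1) × Mon d → ℂ)
    (hc : ∀ y : Fin 4 → ℂ, y ≠ 0 → ∃ i, cf c i y ≠ 0) {C : Set (PS (Fin 2 × Fin 4))}
    (hC : C ⊆ member c) (hcu : IsCurve C) (m n : ℕ) (hm : d ≤ m + 1) :
    w C (m + 1) n ≤ w C m (n + d) := by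
  classical
  have hCY : C ⊆ Y := hC.trans (member_subset c)
  -- a coefficient which does not vanish on `C`
  have hex : ∃ i : Fin (d + 1), res C (fun p => cf c i p.2) ≠ 0 := by
    obtain ⟨p, hp⟩ := hat_nonempty hCY hcu
    obtain ⟨i, hi⟩ := hc p.2 (right_ne_zero hp.1)
    exact ⟨i, fun h => hi (res_eq_zero.mp h p hp)⟩
  by_cases h1 : res C (fun p => p.1 1) = 0
  · -- all of `C` lies over the point `s₁ = 0`
    obtain ⟨i, hi⟩ := hex
    refine w_le hCY hcu (g := fun p => p.1 0) (cf_mem c i) hi ?_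
    intro u hu
    unfold Wt at hu
    induction hu using Submodule.span_induction with
    | mem u hu =>
      obtain ⟨α, β, h2, h3, rfl⟩ := hu
      by_cases hα : α 1 = 0
      · have h4 : α 0 = m + 1 := by rw [Fin.sum_univ_two] at h2; omega
        refine ⟨(fun p => cf c i p.2) * mon (fun k => if k = 0 then m else 0) β, ?_, ?_⟩
        · have := Wt_mul (cf_mem c i) (mon_mem (α := fun k => if k = 0 then m else 0) (β := β)
            (m := m) (n := n) (by simp) h3)
          rwa [zero_add, add_comm d n] at this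
        · congr 1
          funext p
          simp only [Pi.mul_apply, mon, Fin.prod_univ_two, hα, h4]
          simp
          ring
      · refine ⟨0, zero_mem _, ?_⟩
        rw [mul_zero, map_zero, res_eq_zero]
        intro p hp
        have h5 : p.1 1 = 0 := res_eq_zero.mp h1 p hp
        simp only [Pi.mul_apply, mon, Fin.prod_univ_two, h5, zero_pow hα]
        ring
    | zero => exact ⟨0, zero_mem _, by simp⟩
    | add u u' _ _ h h' =>
      obtain ⟨v, hv, he⟩ := h
      obtain ⟨v', hv', he'⟩ := h'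
      refine ⟨v + v', add_mem hv hv', ?_⟩
      rw [mul_add, mul_add, map_add, map_add, he, he']
    | smul a u _ h =>
      obtain ⟨v, hv, he⟩ := h
      refine ⟨a • v, Submodule.smul_mem _ _ hv, ?_⟩
      rw [mul_smul_comm, mul_smul_comm, map_smul, map_smul, he]
  · -- the largest index of a coefficient which does not vanish on `C`
    obtain ⟨i, hi, hmax⟩ : ∃ i : Fin (d + 1), res C (fun p => cf c i p.2) ≠ 0 ∧
        ∀ j, i < j → res C (fun p => cf c j p.2) = 0 := by
      obtain ⟨i, hi, hmax⟩ := Finset.exists_max_image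
        (Finset.univ.filter fun i : Fin (d + 1) => res C (fun p => cf c i p.2) ≠ 0) id
        (by obtain ⟨i, hi⟩ := hex; exact ⟨i, by simpa using hi⟩)
      refine ⟨i, by simpa using hi, ?_⟩
      intro j hj
      by_contra hcon
      exact absurd (hmax j (by simpa using hcon)) (not_le.mpr hj)
    -- the reduced equation
    let E : (Fin 2 → ℂ) × (Fin 4 → ℂ) → ℂ := ∑ j : Fin (d + 1), if j ≤ i then
      (fun p : (Fin 2 → ℂ) × (Fin 4 → ℂ) => cf c j p.2) *
        ((fun p => p.1 0) ^ (j : ℕ) * (fun p => p.1 1) ^ ((i : ℕ) - (j : ℕ))) else 0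
    have hE : E ∈ Wt i d := by
      apply Submodule.sum_mem
      intro j _
      split_ifs with hj
      · have h := Wt_mul (cf_mem c j) (Wt_mul (Wt_pow (mon_apply_left 0) (j : ℕ))
          (Wt_pow (mon_apply_left 1) ((i : ℕ) - (j : ℕ))))
        have hj' : (j : ℕ) ≤ i := hj
        have e1 : 0 + ((j : ℕ) * 1 + ((i : ℕ) - (j : ℕ)) * 1) = i := by omega
        have e2 : d + ((j : ℕ) * 0 + ((i : ℕ) - (j : ℕ)) * 0) = d := by ring
        rwa [e1, e2] at h
      · exact zero_mem _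
    have hE0 : res C E = 0 := by
      have h2 : res C ((fun p => p.1 1) ^ (d - (i : ℕ)) * E) = 0 := by
        rw [res_eq_zero]
        intro p hp
        have h3 := form_zero c hC p hp
        rw [form_eq] at h3
        rw [← h3]
        simp only [Pi.mul_apply, Pi.pow_apply, E, Finset.sum_apply, Finset.mul_sum]
        apply Finset.sum_congr rfl
        intro j _
        split_ifs with hj
        · have hj' : (j : ℕ) ≤ i := hj
          have hi' : (i : ℕ) ≤ d := Nat.lt_succ_iff.mp i.2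
          have e : d - (j : ℕ) = (d - (i : ℕ)) + ((i : ℕ) - (j : ℕ)) := by omega
          simp only [Pi.mul_apply, Pi.pow_apply]
          rw [e, pow_add]
          ring
        · have h4 := res_eq_zero.mp (hmax j (not_le.mp hj)) p hp
          rw [Pi.zero_apply, h4]
          ring
      rcases dom hCY hcu (Wt_pow (mon_apply_left 1) (d - (i : ℕ))) hE h2 with h3 | h3
      · exfalso
        apply h1
        rw [res_eq_zero] at h3 ⊢
        intro p hp
        exact eq_zero_of_pow_eq_zero (h3 p hp)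
      · exact h3
    -- the index is positive
    have hi0 : (i : ℕ) ≠ 0 := by
      intro h0
      apply hi
      rw [res_eq_zero] at hE0 ⊢
      intro p hp
      have h2 := hE0 p hp
      have hi00 : i = 0 := Fin.ext h0
      simp only [E, Finset.sum_apply, hi00] at h2
      rw [Finset.sum_eq_single 0] at h2
      · simpa [hi00] using h2
      · intro j _ hj
        rw [if_neg]
        · rfl
        · intro h; exact hj (le_antisymm h (Fin.zero_le _))
      · intro h; exact absurd (Finset.mem_univ _) h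
    let E' : (Fin 2 → ℂ) × (Fin 4 → ℂ) → ℂ := ∑ j : Fin (d + 1), if j < i then
      (fun p : (Fin 2 → ℂ) × (Fin 4 → ℂ) => cf c j p.2) *
        ((fun p => p.1 0) ^ (j : ℕ) * (fun p => p.1 1) ^ ((i : ℕ) - 1 - (j : ℕ))) else 0
    have hE' : E' ∈ Wt ((i : ℕ) - 1) d := by
      apply Submodule.sum_mem
      intro j _
      split_ifs with hj
      · have h := Wt_mul (cf_mem c j) (Wt_mul (Wt_pow (mon_apply_left 0) (j : ℕ))
          (Wt_pow (mon_apply_left 1) ((i : ℕ) - 1 - (j : ℕ))))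
        have hj' : (j : ℕ) < i := hj
        have e1 : 0 + ((j : ℕ) * 1 + ((i : ℕ) - 1 - (j : ℕ)) * 1) = (i : ℕ) - 1 := by omega
        have e2 : d + ((j : ℕ) * 0 + ((i : ℕ) - 1 - (j : ℕ)) * 0) = d := by ring
        rwa [e1, e2] at h
      · exact zero_mem _
    have hEE : ∀ p ∈ hat C, cf c i p.2 * p.1 0 ^ (i : ℕ) = - (p.1 1 * E' p) := by
      intro p hp
      have h2 := res_eq_zero.mp hE0 p hp
      have h3 : E p = cf c i p.2 * p.1 0 ^ (i : ℕ) + p.1 1 * E' p := by
        simp only [E, E', Finset.sum_apply, Finset.mul_sum]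
        rw [← Finset.add_sum_erase _ _ (Finset.mem_univ i),
          ← Finset.add_sum_erase Finset.univ (fun j => p.1 1 * _) (Finset.mem_univ i)]
        rw [if_pos le_rfl, if_neg (lt_irrefl i)]
        simp only [Pi.mul_apply, Pi.pow_apply, Nat.sub_self, pow_zero, mul_one, Pi.zero_apply,
          mul_zero, zero_add]
        congr 1
        apply Finset.sum_congr rfl
        intro j hj
        have hji : j ≠ i := Finset.ne_of_mem_erase hj
        by_cases hlt : j < i
        · rw [if_pos hlt.le, if_pos hlt]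
          have hj' : (j : ℕ) < i := hlt
          have e : (i : ℕ) - (j : ℕ) = ((i : ℕ) - 1 - (j : ℕ)) + 1 := by omega
          simp only [Pi.mul_apply, Pi.pow_apply]
          rw [e, pow_succ]
          ring
        · rw [if_neg (fun h => hlt (lt_of_le_of_ne h hji)), if_neg hlt]
          simp
      rw [h3] at h2
      linear_combination h2
    refine w_le hCY hcu (g := fun p => p.1 1) (cf_mem c i) hi ?_
    intro u hu
    unfold Wt at hu
    induction hu using Submodule.span_induction with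
    | mem u hu =>
      obtain ⟨α, β, h2, h3, rfl⟩ := hu
      by_cases hα : α 1 = 0
      · have h4 : α 0 = m + 1 := by rw [Fin.sum_univ_two] at h2; omega
        have hi' : (i : ℕ) ≤ d := Nat.lt_succ_iff.mp i.2
        refine ⟨-(E' * mon (fun k => if k = 0 then m + 1 - i else 0) β), ?_, ?_⟩
        · apply neg_mem
          have := Wt_mul hE' (mon_mem (α := fun k => if k = 0 then m + 1 - (i : ℕ) else 0) (β := β)
            (m := m + 1 - i) (n := n) (by simp) h3)
          have e : (i : ℕ) - 1 + (m + 1 - (i : ℕ)) = m := by omega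
          rwa [e, add_comm d n] at this
        · rw [← sub_eq_zero, ← map_sub, res_eq_zero]
          intro p hp
          have h5 := hEE p hp
          have e : m + 1 = (i : ℕ) + (m + 1 - (i : ℕ)) := by omega
          simp only [Pi.mul_apply, Pi.sub_apply, Pi.neg_apply, mon, Fin.prod_univ_two, hα, h4]
          simp only [if_true, pow_zero, mul_one, one_ne_zero, if_false]
          have e2 : p.1 0 ^ (m + 1) = p.1 0 ^ (i : ℕ) * p.1 0 ^ (m + 1 - (i : ℕ)) := by
            rw [← pow_add, ← e]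
          rw [e2]
          linear_combination (p.1 0 ^ (m + 1 - (i : ℕ)) * ∏ j, p.2 j ^ β j) * h5
      · refine ⟨(fun p => cf c i p.2) * mon (fun k => if k = 1 then α 1 - 1 else α 0) β, ?_, ?_⟩
        · have h6 : ∑ k : Fin 2, (fun k => if k = 1 then α 1 - 1 else α 0) k = m := by
            rw [Fin.sum_univ_two] at h2 ⊢
            simp
            omega
          have := Wt_mul (cf_mem c i) (mon_mem (m := m) (n := n) h6 h3)
          rwa [zero_add, add_comm d n] at this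
        · congr 1
          funext p
          simp only [Pi.mul_apply, mon, Fin.prod_univ_two]
          have e : p.1 1 ^ (α 1) = p.1 1 ^ (α 1 - 1) * p.1 1 := by
            rw [← pow_succ]; congr 1; omega
          rw [e]
          simp
          ring
    | zero => exact ⟨0, zero_mem _, by simp⟩
    | add u u' _ _ h h' =>
      obtain ⟨v, hv, he⟩ := h
      obtain ⟨v', hv', he'⟩ := h'
      refine ⟨v + v', add_mem hv hv', ?_⟩
      rw [mul_add, mul_add, map_add, map_add, he, he']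
    | smul a u _ h =>
      obtain ⟨v, hv, he⟩ := h
      refine ⟨a • v, Submodule.smul_mem _ _ hv, ?_⟩
      rw [mul_smul_comm, mul_smul_comm, map_smul, map_smul, he]

/-- The iterated key inequality. -/
theorem key_iter {d : ℕ} (c : Fin (d + 1) × Mon d → ℂ)
    (hc : ∀ y : Fin 4 → ℂ, y ≠ 0 → ∃ i, cf c i y ≠ 0) {C : Set (PS (Fin 2 × Fin 4))}
    (hC : C ⊆ member c) (hcu : IsCurve C) (m n j : ℕ) (hm : d ≤ m + 1) :
    w C (m + j) n ≤ w C m (n + d * j) := by
  induction j generalizing n with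
  | zero => simp
  | succ j ih =>
    have h1 := key c hc hC hcu (m + j) n (by omega)
    have h2 := ih (n + d)
    have e : n + d + d * j = n + d * (j + 1) := by ring
    rw [e] at h2
    exact (h1.trans h2)

end Pool.Agent.TH177.EC
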