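import Pool.Agent.TH177.EC.Basic

set_option autoImplicit false

open scoped LinearAlgebra.Projectivization
open MvPolynomial

namespace Pool.Agent.TH177.EC

/-- Monomial maps which embed `Y`. -/
structure EMap (κ : Type) (a b : ℕ) extends MMap κ a b where
  ha : a ≠ 0
  hne : ∀ p : (Fin 2 → ℂ) × (Fin 4 → ℂ), segre p.1 p.2 ≠ 0 → toMMap.val p ≠ 0
  R1 : ∀ p : (Fin 2 → ℂ) × (Fin 4 → ℂ), segre p.1 p.2 ≠ 0 →
    ∃ (e : ℕ) (g : κ → MvPolynomial (Fin 2 × Fin 4) ℂ) (m : (Fin 2 → ℂ) × (Fin 4 → ℂ) → ℂ),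
      (∀ q, (g q).IsHomogeneous e) ∧ m p ≠ 0 ∧
      ∀ p', (fun q => eval (segre p'.1 p'.2) (g q)) = m p' • toMMap.val p'
  R2 : ∀ p : (Fin 2 → ℂ) × (Fin 4 → ℂ), segre p.1 p.2 ≠ 0 →
    ∃ (e : ℕ) (g : Fin 2 × Fin 4 → MvPolynomial κ ℂ) (m : (Fin 2 → ℂ) × (Fin 4 → ℂ) → ℂ),
      (∀ q, (g q).IsHomogeneous e) ∧ m p ≠ 0 ∧
      ∀ p', (fun q => eval (toMMap.val p') (g q)) = m p' • segre p'.1 p'.2

variable {κ : Type} {a b : ℕ}

theorem mon_smul (α : Fin 2 → ℕ) (β : Fin 4 → ℕ) (c : ℂ) (s : Fin 2 → ℂ) (y : Fin 4 → ℂ) :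
    mon α β (c • s, y) = c ^ (∑ i, α i) * mon α β (s, y) := by
  simp only [mon, Pi.smul_apply, smul_eq_mul, mul_pow, Finset.prod_mul_distrib,
    Finset.prod_pow_eq_pow_sum]
  ring

theorem MMap.val_smul (T : MMap κ a b) (c : ℂ) (s : Fin 2 → ℂ) (y : Fin 4 → ℂ) :
    T.val (c • s, y) = c ^ a • T.val (s, y) := by
  funext q
  simp only [MMap.val, Pi.smul_apply, smul_eq_mul, mon_smul, T.hA]

theorem eval_smul_hom {ι : Type} (F : MvPolynomial ι ℂ) (e : ℕ) (hF : F.IsHomogeneous e) (c : ℂ)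
    (v : ι → ℂ) : eval (c • v) F = c ^ e * eval v F := by
  rw [eval_eq, eval_eq, Finset.mul_sum]
  apply Finset.sum_congr rfl
  intro d hd
  have h1 : d.degree = e := by
    rw [Finsupp.degree_eq_weight_one]
    exact hF (mem_support_iff.mp hd)
  simp only [Pi.smul_apply, smul_eq_mul, mul_pow, Finset.prod_mul_distrib,
    Finset.prod_pow_eq_pow_sum]
  rw [← h1]
  simp only [Finsupp.degree_apply]
  ring

theorem EMap.well (T : EMap κ a b) {p p' : (Fin 2 → ℂ) × (Fin 4 → ℂ)}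
    (h : segre p.1 p.2 ≠ 0) (h' : segre p'.1 p'.2 ≠ 0)
    (he : Projectivization.mk ℂ _ h = Projectivization.mk ℂ _ h') :
    Projectivization.mk ℂ _ (T.hne p h) = Projectivization.mk ℂ _ (T.hne p' h') := by
  rw [Projectivization.mk_eq_mk_iff'] at he ⊢
  obtain ⟨c, hc⟩ := he
  obtain ⟨e, g, m, h1, h2, h3⟩ := T.R1 p h
  have h4 := h3 p
  have h5 := h3 p'
  have h6 : (fun q => eval (segre p.1 p.2) (g q)) =
      c ^ e • (fun q => eval (segre p'.1 p'.2) (g q)) := by
    funext q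
    rw [← hc, eval_smul_hom _ e (h1 q)]
    rfl
  rw [h4, h5] at h6
  refine ⟨(m p)⁻¹ * (c ^ e * m p'), ?_⟩
  rw [mul_smul, mul_smul, ← h6, smul_smul, inv_mul_cancel₀ h2, one_smul]

theorem EMap.well2 (T : EMap κ a b) {p p' : (Fin 2 → ℂ) × (Fin 4 → ℂ)}
    (h : segre p.1 p.2 ≠ 0) (h' : segre p'.1 p'.2 ≠ 0)
    (he : Projectivization.mk ℂ _ (T.hne p h) = Projectivization.mk ℂ _ (T.hne p' h')) :
    Projectivization.mk ℂ _ h = Projectivization.mk ℂ _ h' := by
  rw [Projectivization.mk_eq_mk_iff'] at he ⊢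
  obtain ⟨c, hc⟩ := he
  obtain ⟨e, g, m, h1, h2, h3⟩ := T.R2 p h
  have h4 := h3 p
  have h5 := h3 p'
  have h6 : (fun q => eval (T.val p) (g q)) =
      c ^ e • (fun q => eval (T.val p') (g q)) := by
    funext q
    rw [← hc, eval_smul_hom _ e (h1 q)]
    rfl
  rw [h4, h5] at h6
  refine ⟨(m p)⁻¹ * (c ^ e * m p'), ?_⟩
  rw [mul_smul, mul_smul, ← h6, smul_smul, inv_mul_cancel₀ h2, one_smul]

theorem segre_one : segre (fun _ => 1) (fun _ => 1) ≠ 0 := by
  intro h
  have := congrFun h (0, 0)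
  simp [segre] at this

open Classical in
/-- the embedding -/
noncomputable def EMap.phi (T : EMap κ a b) (x : PS (Fin 2 × Fin 4)) : PS κ :=
  if h : ∃ p : (Fin 2 → ℂ) × (Fin 4 → ℂ), ∃ h : segre p.1 p.2 ≠ 0, x = Projectivization.mk ℂ _ h
  then Projectivization.mk ℂ _ (T.hne h.choose h.choose_spec.choose)
  else Projectivization.mk ℂ _ (T.hne (fun _ => 1, fun _ => 1) segre_one)

theorem EMap.phi_mk (T : EMap κ a b) (p : (Fin 2 → ℂ) × (Fin 4 → ℂ)) (h : segre p.1 p.2 ≠ 0) :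
    T.phi (Projectivization.mk ℂ _ h) = Projectivization.mk ℂ _ (T.hne p h) := by
  have h0 : ∃ p' : (Fin 2 → ℂ) × (Fin 4 → ℂ), ∃ h' : segre p'.1 p'.2 ≠ 0,
      Projectivization.mk ℂ _ h = Projectivization.mk ℂ _ h' := ⟨p, h, rfl⟩
  unfold EMap.phi
  rw [dif_pos h0]
  exact T.well _ _ h0.choose_spec.choose_spec.symm

open Classical in
/-- the inverse -/
noncomputable def EMap.psi (T : EMap κ a b) (x : PS κ) : PS (Fin 2 × Fin 4) :=
  if h : ∃ p : (Fin 2 → ℂ) × (Fin 4 → ℂ), ∃ h : segre p.1 p.2 ≠ 0,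
    x = Projectivization.mk ℂ _ (T.hne p h)
  then Projectivization.mk ℂ _ h.choose_spec.choose
  else Projectivization.mk ℂ _ segre_one

theorem EMap.psi_mk (T : EMap κ a b) (p : (Fin 2 → ℂ) × (Fin 4 → ℂ)) (h : segre p.1 p.2 ≠ 0) :
    T.psi (Projectivization.mk ℂ _ (T.hne p h)) = Projectivization.mk ℂ _ h := by
  have h0 : ∃ p' : (Fin 2 → ℂ) × (Fin 4 → ℂ), ∃ h' : segre p'.1 p'.2 ≠ 0,
      Projectivization.mk ℂ _ (T.hne p h) = Projectivization.mk ℂ _ (T.hne p' h') := ⟨p, h, rfl⟩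
  unfold EMap.psi
  rw [dif_pos h0]
  exact T.well2 _ _ h0.choose_spec.choose_spec.symm

/-- the cone over the image -/
theorem EMap.cone_image (T : EMap κ a b) {C : Set (PS (Fin 2 × Fin 4))} (hC : C ⊆ Y)
    (v : κ → ℂ) : v ∈ cone (T.phi '' C) ↔ ∃ p ∈ hat C, v = T.val p := by
  constructor
  · rintro ⟨hv, x, hx, hxv⟩
    obtain ⟨s, y, h, rfl⟩ := hC hx
    have h1 := T.phi_mk (s, y) h
    rw [h1, Projectivization.mk_eq_mk_iff'] at hxv
    obtain ⟨c, hc⟩ := hxv
    have hc0 : c ≠ 0 := by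
      rintro rfl
      rw [zero_smul] at hc
      exact T.hne (s, y) h hc.symm
    obtain ⟨z, hz⟩ := IsAlgClosed.exists_pow_nat_eq c⁻¹ (Nat.pos_of_ne_zero T.ha)
    have hz0 : z ≠ 0 := by
      rintro rfl
      rw [zero_pow T.ha] at hz
      exact inv_ne_zero hc0 hz.symm
    refine ⟨(z • s, y), ?_, ?_⟩
    · show segre (z • s) y ∈ cone C
      rw [segre_smul_left]
      exact mem_cone_smul ⟨h, hx⟩ hz0
    · rw [MMap.val_smul, hz, ← hc, smul_smul, inv_mul_cancel₀ hc0, one_smul]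
  · rintro ⟨p, hp, rfl⟩
    obtain ⟨h, hS⟩ := hp
    exact ⟨T.hne p h, _, hS, T.phi_mk p h⟩

theorem EMap.isEmbedding (T : EMap κ a b) : IsEmbeddingOn Y T.phi := by
  refine ⟨?_, T.psi, ?_, ?_⟩
  · intro x hx
    obtain ⟨s, y, rfl⟩ := exists_of_mem_cone (subset_refl Y) hx
    obtain ⟨e, g, m, h1, h2, h3⟩ := T.R1 (s, y) hx.1
    refine ⟨e, g, h1, ?_, ?_⟩
    · have := h3 (s, y)
      simp only at this
      rw [this]
      exact smul_ne_zero h2 (T.hne (s, y) hx.1)
    · intro v hv hvY h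
      obtain ⟨s', y', rfl⟩ := exists_of_mem_cone (subset_refl Y) hvY
      rw [T.phi_mk (s', y') hv, Projectivization.mk_eq_mk_iff']
      have h4 := h3 (s', y')
      simp only at h4
      have h5 : m (s', y') ≠ 0 := by
        intro h0
        rw [h0, zero_smul] at h4
        exact h h4
      refine ⟨(m (s', y'))⁻¹, ?_⟩
      rw [h4, smul_smul, inv_mul_cancel₀ h5, one_smul]
  · intro x hx
    obtain ⟨p, hp, rfl⟩ := (T.cone_image (subset_refl Y) x).mp hx
    obtain ⟨e, g, m, h1, h2, h3⟩ := T.R2 p hp.1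
    refine ⟨e, g, h1, ?_, ?_⟩
    · rw [h3 p]
      exact smul_ne_zero h2 hp.1
    · intro v hv hvY h
      obtain ⟨p', hp', rfl⟩ := (T.cone_image (subset_refl Y) v).mp hvY
      rw [T.psi_mk p' hp'.1, Projectivization.mk_eq_mk_iff']
      have h4 := h3 p'
      have h5 : m p' ≠ 0 := by
        intro h0
        rw [h0, zero_smul] at h4
        exact h h4
      refine ⟨(m p')⁻¹, ?_⟩
      rw [h4, smul_smul, inv_mul_cancel₀ h5, one_smul]
  · rintro x ⟨s, y, h, rfl⟩
    rw [T.phi_mk (s, y) h, T.psi_mk (s, y) h]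

theorem EMap.hilb_image [Fintype κ] (T : EMap κ a b) {C : Set (PS (Fin 2 × Fin 4))} (hC : C ⊆ Y)
    (k : ℕ) : hilb (T.phi '' C) k = w C (k * a) (k * b) :=
  T.hilb_eq C _ (T.cone_image hC) k

/-! ### The three maps -/

theorem exists_split {ι : Type} [Fintype ι] [DecidableEq ι] (α : ι → ℕ) (k : ℕ)
    (h : ∑ i, α i = k + 1) : ∃ (i : ι) (α' : ι → ℕ), α = Pi.single i 1 + α' ∧ ∑ i, α' i = k := by
  obtain ⟨i, hi⟩ : ∃ i, α i ≠ 0 := by
    by_contra hcon
    push Not at hcon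
    rw [Finset.sum_eq_zero (fun i _ => hcon i)] at h
    omega
  have h1 : α = Pi.single i 1 + (α - Pi.single i 1) := by
    funext j
    simp only [Pi.add_apply, Pi.sub_apply]
    by_cases hj : j = i
    · subst hj; simp; omega
    · simp [hj]
  refine ⟨i, α - Pi.single i 1, h1, ?_⟩
  have h2 := h
  rw [h1] at h2
  simp only [Pi.add_apply, Finset.sum_add_distrib, Finset.sum_pi_single', Finset.mem_univ,
    if_true] at h2
  omega

theorem mon_single (i : Fin 2) (j : Fin 4) (p : (Fin 2 → ℂ) × (Fin 4 → ℂ)) :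
    mon (Pi.single i 1) (Pi.single j 1) p = p.1 i * p.2 j := by
  unfold mon
  congr 1
  · rw [Finset.prod_eq_single i]
    · simp
    · intro k _ hk; simp [hk]
    · intro h; exact absurd (Finset.mem_univ _) h
  · rw [Finset.prod_eq_single j]
    · simp
    · intro k _ hk; simp [hk]
    · intro h; exact absurd (Finset.mem_univ _) h

theorem mon_single0 (j : Fin 4) (p : (Fin 2 → ℂ) × (Fin 4 → ℂ)) :
    mon 0 (Pi.single j 1) p = p.2 j := by
  unfold mon
  rw [Finset.prod_eq_single (s := Finset.univ (α := Fin 4)) j]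
  · simp
  · intro k _ hk; simp [hk]
  · intro h; exact absurd (Finset.mem_univ _) h

theorem mon_single1 (j : Fin 2) (p : (Fin 2 → ℂ) × (Fin 4 → ℂ)) :
    mon (Pi.single j 1) 0 p = p.1 j := by
  unfold mon
  rw [Finset.prod_eq_single (s := Finset.univ (α := Fin 2)) j]
  · simp
  · intro k _ hk; simp [hk]
  · intro h; exact absurd (Finset.mem_univ _) h

/-- The Segre map. -/
noncomputable def T11 : MMap (Fin 2 × Fin 4) 1 1 where
  A q := Pi.single q.1 1
  B q := Pi.single q.2 1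
  hA q := by simp
  hB q := by simp
  dec := by
    intro k
    induction k with
    | zero =>
      intro α β hα hβ
      refine ⟨0, rfl, ?_, ?_⟩
      · funext i
        simp only [Nat.zero_mul, Finset.sum_eq_zero_iff, Finset.mem_univ, true_imp_iff] at hα
        simp [hα i]
      · funext i
        simp only [Nat.zero_mul, Finset.sum_eq_zero_iff, Finset.mem_univ, true_imp_iff] at hβ
        simp [hβ i]
    | succ k ih =>
      intro α β hα hβ
      obtain ⟨i, α', rfl, h1⟩ := exists_split α k (by simpa using hα)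
      obtain ⟨j, β', rfl, h2⟩ := exists_split β k (by simpa using hβ)
      obtain ⟨γ, h3, h4, h5⟩ := ih α' β' (by simpa using h1) (by simpa using h2)
      refine ⟨(i, j) ::ₘ γ, by simp [h3], ?_, ?_⟩
      · rw [Multiset.map_cons, Multiset.sum_cons, h4]
      · rw [Multiset.map_cons, Multiset.sum_cons, h5]

theorem T11_val (p : (Fin 2 → ℂ) × (Fin 4 → ℂ)) : T11.val p = segre p.1 p.2 := by
  funext q
  exact mon_single q.1 q.2 p

/-- The map given by `O(1, 2)`. -/
noncomputable def M12 : MMap (Fin 2 × Fin 4 × Fin 4) 1 2 where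
  A q := Pi.single q.1 1
  B q := Pi.single q.2.1 1 + Pi.single q.2.2 1
  hA q := by simp
  hB q := by simp [Finset.sum_add_distrib]
  dec := by
    intro k
    induction k with
    | zero =>
      intro α β hα hβ
      refine ⟨0, rfl, ?_, ?_⟩
      · funext i
        simp only [Nat.zero_mul, Finset.sum_eq_zero_iff, Finset.mem_univ, true_imp_iff] at hα
        simp [hα i]
      · funext i
        simp only [Nat.zero_mul, Finset.sum_eq_zero_iff, Finset.mem_univ, true_imp_iff] at hβ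
        simp [hβ i]
    | succ k ih =>
      intro α β hα hβ
      obtain ⟨i, α', rfl, h1⟩ := exists_split α k (by simpa using hα)
      obtain ⟨j, β', rfl, h2⟩ := exists_split β (k * 2 + 1) (by rw [hβ]; ring)
      obtain ⟨l, β'', rfl, h6⟩ := exists_split β' (k * 2) h2
      obtain ⟨γ, h3, h4, h5⟩ := ih α' β'' (by simpa using h1) h6
      refine ⟨(i, j, l) ::ₘ γ, by simp [h3], ?_, ?_⟩
      · rw [Multiset.map_cons, Multiset.sum_cons, h4]
      · rw [Multiset.map_cons, Multiset.sum_cons, h5, add_assoc]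

theorem M12_val (p : (Fin 2 → ℂ) × (Fin 4 → ℂ)) (q : Fin 2 × Fin 4 × Fin 4) :
    M12.val p q = p.1 q.1 * p.2 q.2.1 * p.2 q.2.2 := by
  show mon (Pi.single q.1 1) (Pi.single q.2.1 1 + Pi.single q.2.2 1) p = _
  have := congrFun (mon_mul (Pi.single q.1 1) 0 (Pi.single q.2.1 1) (Pi.single q.2.2 1)) p
  rw [add_zero] at this
  rw [this, Pi.mul_apply, mon_single, mon_single0]

/-- The map given by `O(2, 1)`. -/
noncomputable def M21 : MMap (Fin 2 × Fin 2 × Fin 4) 2 1 where
  A q := Pi.single q.1 1 + Pi.single q.2.1 1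
  B q := Pi.single q.2.2 1
  hA q := by simp [Finset.sum_add_distrib]
  hB q := by simp
  dec := by
    intro k
    induction k with
    | zero =>
      intro α β hα hβ
      refine ⟨0, rfl, ?_, ?_⟩
      · funext i
        simp only [Nat.zero_mul, Finset.sum_eq_zero_iff, Finset.mem_univ, true_imp_iff] at hα
        simp [hα i]
      · funext i
        simp only [Nat.zero_mul, Finset.sum_eq_zero_iff, Finset.mem_univ, true_imp_iff] at hβ
        simp [hβ i]
    | succ k ih =>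
      intro α β hα hβ
      obtain ⟨l, β', rfl, h1⟩ := exists_split β k (by simpa using hβ)
      obtain ⟨i, α', rfl, h2⟩ := exists_split α (k * 2 + 1) (by rw [hα]; ring)
      obtain ⟨j, α'', rfl, h6⟩ := exists_split α' (k * 2) h2
      obtain ⟨γ, h3, h4, h5⟩ := ih α'' β' h6 (by simpa using h1)
      refine ⟨(i, j, l) ::ₘ γ, by simp [h3], ?_, ?_⟩
      · rw [Multiset.map_cons, Multiset.sum_cons, h4, add_assoc]
      · rw [Multiset.map_cons, Multiset.sum_cons, h5]

theorem M21_val (p : (Fin 2 → ℂ) × (Fin 4 → ℂ)) (q : Fin 2 × Fin 2 × Fin 4) :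
    M21.val p q = p.1 q.1 * p.1 q.2.1 * p.2 q.2.2 := by
  show mon (Pi.single q.1 1 + Pi.single q.2.1 1) (Pi.single q.2.2 1) p = _
  have := congrFun (mon_mul (Pi.single q.1 1) (Pi.single q.2.1 1) 0 (Pi.single q.2.2 1)) p
  rw [zero_add] at this
  rw [this, Pi.mul_apply, mon_single, mon_single1]
  ring

theorem exists_coord {p : (Fin 2 → ℂ) × (Fin 4 → ℂ)} (h : segre p.1 p.2 ≠ 0) :
    ∃ i j, p.1 i ≠ 0 ∧ p.2 j ≠ 0 := by
  obtain ⟨i, hi⟩ := Function.ne_iff.mp (left_ne_zero h)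
  obtain ⟨j, hj⟩ := Function.ne_iff.mp (right_ne_zero h)
  exact ⟨i, j, hi, hj⟩

/-- The embedding given by `O(1, 2)`. -/
noncomputable def T12 : EMap (Fin 2 × Fin 4 × Fin 4) 1 2 where
  toMMap := M12
  ha := one_ne_zero
  hne := by
    intro p hp h0
    obtain ⟨i, j, hi, hj⟩ := exists_coord hp
    have := congrFun h0 (i, j, j)
    rw [M12_val] at this
    simp only [Pi.zero_apply, mul_eq_zero] at this
    tauto
  R1 := by
    intro p hp
    obtain ⟨i, j, hi, hj⟩ := exists_coord hp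
    refine ⟨2, fun q => X (q.1, q.2.1) * X (i, q.2.2), fun p' => p'.1 i, ?_, hi, ?_⟩
    · intro q
      exact (isHomogeneous_X _ _).mul (isHomogeneous_X _ _)
    · intro p'
      funext q
      rw [map_mul, eval_X, eval_X, Pi.smul_apply, M12_val]
      simp only [segre, smul_eq_mul]
      ring
  R2 := by
    intro p hp
    obtain ⟨i, j, hi, hj⟩ := exists_coord hp
    refine ⟨1, fun q => X (q.1, q.2, j), fun p' => p'.2 j, ?_, hj, ?_⟩
    · intro q
      exact isHomogeneous_X _ _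
    · intro p'
      funext q
      rw [eval_X, Pi.smul_apply, M12_val]
      simp only [segre, smul_eq_mul]
      ring

/-- The embedding given by `O(2, 1)`. -/
noncomputable def T21 : EMap (Fin 2 × Fin 2 × Fin 4) 2 1 where
  toMMap := M21
  ha := two_ne_zero
  hne := by
    intro p hp h0
    obtain ⟨i, j, hi, hj⟩ := exists_coord hp
    have := congrFun h0 (i, i, j)
    rw [M21_val] at this
    simp only [Pi.zero_apply, mul_eq_zero] at this
    tauto
  R1 := by
    intro p hp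
    obtain ⟨i, j, hi, hj⟩ := exists_coord hp
    refine ⟨2, fun q => X (q.1, q.2.2) * X (q.2.1, j), fun p' => p'.2 j, ?_, hj, ?_⟩
    · intro q
      exact (isHomogeneous_X _ _).mul (isHomogeneous_X _ _)
    · intro p'
      funext q
      rw [map_mul, eval_X, eval_X, Pi.smul_apply, M21_val]
      simp only [segre, smul_eq_mul]
      ring
  R2 := by
    intro p hp
    obtain ⟨i, j, hi, hj⟩ := exists_coord hp
    refine ⟨1, fun q => X (i, q.1, q.2), fun p' => p'.1 i, ?_, hi, ?_⟩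
    · intro q
      exact isHomogeneous_X _ _
    · intro p'
      funext q
      rw [eval_X, Pi.smul_apply, M21_val]
      simp only [segre, smul_eq_mul]
      ring

end Pool.Agent.TH177.EC
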