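import Pool.Agent.TH177.EC.Rul

set_option autoImplicit false

open scoped LinearAlgebra.Projectivization
open MvPolynomial

namespace Pool.Agent.TH177.EC

/-! ### Degrees -/

open Filter in
/-- comparison of growth rates -/
theorem limsup_cmp (a b : ℕ → ℕ) (L : ℕ → ℕ) (c : NNReal) (hL : Tendsto L atTop atTop)
    (h1 : ∀ᶠ k in atTop, a k ≤ b (L k)) (h2 : ∀ᶠ k in atTop, (L k : ENNReal) ≤ c * (k : ENNReal)) :
    limsup (fun k : ℕ => (a k : ENNReal) / (k : ENNReal)) atTop ≤
      c * limsup (fun k : ℕ => (b k : ENNReal) / (k : ENNReal)) atTop := by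
  have h3 : limsup (fun k : ℕ => (a k : ENNReal) / (k : ENNReal)) atTop ≤
      limsup (fun k : ℕ => (c : ENNReal) * ((b (L k) : ENNReal) / (L k : ENNReal))) atTop := by
    refine limsup_le_limsup ?_
    filter_upwards [h1, h2, hL.eventually_gt_atTop 0, eventually_gt_atTop 0] with k hk1 hk2 hk3 hk4
    have hk0 : (k : ENNReal) ≠ 0 := by exact_mod_cast hk4.ne'
    have hL0 : (L k : ENNReal) ≠ 0 := by exact_mod_cast hk3.ne'
    rw [ENNReal.div_le_iff hk0 (ENNReal.natCast_ne_top k)]
    calc (a k : ENNReal) ≤ (b (L k) : ENNReal) := by exact_mod_cast hk1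
      _ = (b (L k) : ENNReal) / (L k : ENNReal) * (L k : ENNReal) := by
          rw [ENNReal.div_mul_cancel hL0 (ENNReal.natCast_ne_top _)]
      _ ≤ (b (L k) : ENNReal) / (L k : ENNReal) * (c * (k : ENNReal)) := by gcongr
      _ = (c : ENNReal) * ((b (L k) : ENNReal) / (L k : ENNReal)) * (k : ENNReal) := by ring
  refine h3.trans ?_
  rw [ENNReal.limsup_const_mul_of_ne_top ENNReal.coe_ne_top]
  gcongr
  exact hL.limsup_comp_le_limsup (u := fun k : ℕ => (b k : ENNReal) / (k : ENNReal))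

/-- The growth rate before taking real values. -/
noncomputable def edeg {ι : Type} (C : Set (PS ι)) : ENNReal :=
  Filter.limsup (fun k : ℕ => (hilb C k : ENNReal) / (k : ENNReal)) Filter.atTop

theorem degree_eq {ι : Type} (C : Set (PS ι)) : degree C = (edeg C).toReal := rfl

/-- the slope -/
noncomputable def slo (d : ℕ) : NNReal := (2 * d + 3) / (d + 2)

theorem slo_lt (d : ℕ) : (slo d : ℝ) < 2 := by
  unfold slo
  push_cast
  rw [div_lt_iff₀ (by positivity)]
  linarith

theorem e21_le {d : ℕ} (c : Fin (d + 1) × Mon d → ℂ)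
    (hc : ∀ y : Fin 4 → ℂ, y ≠ 0 → ∃ i, cf c i y ≠ 0) {C : Set (PS (Fin 2 × Fin 4))}
    (hC : C ⊆ member c) (hcu : IsCurve C) :
    edeg (T21.phi '' C) ≤ slo d * edeg (T12.phi '' C) := by
  have hCY : C ⊆ Y := hC.trans (member_subset c)
  unfold edeg
  refine limsup_cmp _ _ (fun q => (2 * d + 1) * (q / (d + 2) + 1)) (slo d) ?_ ?_ ?_
  · refine Filter.tendsto_atTop_mono (f := fun q => q / (d + 2)) ?_ ?_
    · intro q
      nlinarith [Nat.zero_le (d * (q / (d + 2)))]
    · exact Nat.tendsto_div_const_atTop (by omega)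
  · refine Filter.Eventually.of_forall fun q => ?_
    rw [T21.hilb_image hCY, T12.hilb_image hCY]
    set k := q / (d + 2) + 1 with hk
    have hq : q ≤ (d + 2) * k := by
      have := Nat.lt_mul_div_succ q (show 0 < d + 2 by omega)
      exact this.le
    have h1 : w C (q * 2) (q * 1) ≤ w C ((2 * d + 1) * k + 3 * k) ((d + 2) * k) := by
      apply w_mono hCY hcu
      · nlinarith
      · linarith
    have h2 := key_iter c hc hC hcu ((2 * d + 1) * k) ((d + 2) * k) (3 * k) (by
      have : 1 ≤ k := Nat.succ_le_succ (Nat.zero_le _)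
      nlinarith)
    have h3 : (d + 2) * k + d * (3 * k) = (2 * d + 1) * k * 2 := by ring
    rw [h3] at h2
    rw [mul_one ((2 * d + 1) * k)]
    exact h1.trans h2
  · filter_upwards [Filter.eventually_ge_atTop ((2 * d + 1) * (d + 2))] with q hq
    have h1 : ((((2 * d + 1) * (q / (d + 2) + 1) : ℕ) : NNReal)) ≤ slo d * (q : NNReal) := by
      unfold slo
      rw [div_mul_eq_mul_div, le_div_iff₀ (by positivity)]
      have h2 : (d + 2) * (q / (d + 2)) ≤ q := Nat.mul_div_le q (d + 2)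
      have h3 : (2 * d + 1) * (q / (d + 2) + 1) * (d + 2) ≤ (2 * d + 3) * q := by
        have : (2 * d + 1) * ((d + 2) * (q / (d + 2))) ≤ (2 * d + 1) * q := Nat.mul_le_mul_left _ h2
        nlinarith
      exact_mod_cast h3
    calc (((2 * d + 1) * (q / (d + 2) + 1) : ℕ) : ENNReal)
        = ((((2 * d + 1) * (q / (d + 2) + 1) : ℕ) : NNReal) : ENNReal) := by push_cast; rfl
      _ ≤ ((slo d * (q : NNReal) : NNReal) : ENNReal) := by exact_mod_cast h1
      _ = _ := by push_cast; rfl

theorem e12_le {C : Set (PS (Fin 2 × Fin 4))} (hCY : C ⊆ Y) (hcu : IsCurve C) :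
    edeg (T12.phi '' C) ≤ (2 : NNReal) * edeg (T21.phi '' C) := by
  unfold edeg
  refine limsup_cmp _ _ (fun q => 2 * q) 2 ?_ ?_ ?_
  · exact Filter.tendsto_atTop_mono (fun q => by simp only [id]; omega) Filter.tendsto_id
  · refine Filter.Eventually.of_forall fun q => ?_
    rw [T21.hilb_image hCY, T12.hilb_image hCY]
    apply w_mono hCY hcu <;> omega
  · refine Filter.Eventually.of_forall fun q => ?_
    push_cast
    rfl

theorem deg_le {d : ℕ} (c : Fin (d + 1) × Mon d → ℂ)
    (hc : ∀ y : Fin 4 → ℂ, y ≠ 0 → ∃ i, cf c i y ≠ 0) {C : Set (PS (Fin 2 × Fin 4))}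
    (hC : C ⊆ member c) (hcu : IsCurve C) :
    degree (T21.phi '' C) ≤ slo d * degree (T12.phi '' C) := by
  have h1 := e21_le c hc hC hcu
  have h2 := e12_le (hC.trans (member_subset c)) hcu
  rw [degree_eq, degree_eq]
  by_cases h : edeg (T12.phi '' C) = ⊤
  · have h3 : edeg (T21.phi '' C) = ⊤ := by
      by_contra h3
      rw [h] at h2
      have : (2 : NNReal) * edeg (T21.phi '' C) < ⊤ :=
        ENNReal.mul_lt_top ENNReal.coe_lt_top (lt_top_iff_ne_top.mpr h3)
      exact absurd (lt_of_le_of_lt h2 this) (lt_irrefl _)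
    rw [h, h3]; simp
  · have h4 : ((slo d : ENNReal) * edeg (T12.phi '' C)) ≠ ⊤ :=
      ENNReal.mul_ne_top ENNReal.coe_ne_top h
    calc (edeg (T21.phi '' C)).toReal ≤ ((slo d : ENNReal) * edeg (T12.phi '' C)).toReal :=
          ENNReal.toReal_mono h4 h1
      _ = _ := by rw [ENNReal.toReal_mul]; rfl

/-! ### The degrees of the ruling -/

open Filter in
theorem edeg_Rul {κ : Type} [Fintype κ] {a b : ℕ} (T : EMap κ a b) : edeg (T.phi '' Rul) = a := by
  unfold edeg
  have h1 : (fun k : ℕ => (hilb (T.phi '' Rul) k : ENNReal) / (k : ENNReal)) =ᶠ[atTop]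
      fun k : ℕ => (a : ENNReal) + (k : ENNReal)⁻¹ := by
    filter_upwards [eventually_gt_atTop 0] with k hk
    have hk0 : (k : ENNReal) ≠ 0 := by exact_mod_cast hk.ne'
    rw [T.hilb_image Rul_sub, w_Rul]
    push_cast
    rw [ENNReal.add_div, mul_comm, ENNReal.mul_div_cancel_right hk0 (ENNReal.natCast_ne_top k)]
    simp
  have h2 : Tendsto (fun k : ℕ => (a : ENNReal) + (k : ENNReal)⁻¹) atTop (nhds ((a : ENNReal) + 0)) :=
    Tendsto.add tendsto_const_nhds ENNReal.tendsto_inv_nat_nhds_zero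
  rw [add_zero] at h2
  exact (h2.congr' h1.symm).limsup_eq

theorem degree_Rul {κ : Type} [Fintype κ] {a b : ℕ} (T : EMap κ a b) :
    degree (T.phi '' Rul) = a := by
  rw [degree_eq, edeg_Rul]; simp

end Pool.Agent.TH177.EC
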