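import Pool.Agent.TH177.EC.Fin

set_option autoImplicit false

open scoped LinearAlgebra.Projectivization
open MvPolynomial

namespace Pool.Agent.TH177.EC

/-- a closed half space in a quotient which contains the effective classes contains the effective
cone -/
theorem Eff1_nonneg {ι : Type} {S : Set (PS ι)} (l : N1 S →ₗ[ℝ] ℝ)
    (h : ∀ α : Cycles S, (∀ C, 0 ≤ α C) → 0 ≤ l ((numTrivial S).mkQ α)) {x : N1 S}
    (hx : x ∈ Eff1 S) : 0 ≤ l x := by
  letI : TopologicalSpace (N1 S) := moduleTopology ℝ (N1 S)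
  haveI : IsModuleTopology ℝ (N1 S) := ⟨rfl⟩
  haveI : IsModuleTopology ℝ ℝ := inferInstance
  have hl : Continuous l := IsModuleTopology.continuous_of_linearMap l
  have hcl : IsClosed {x : N1 S | 0 ≤ l x} := isClosed_le continuous_const hl
  have hsub : ((numTrivial S).mkQ '' {α : Cycles S | ∀ C, 0 ≤ α C}) ⊆ {x : N1 S | 0 ≤ l x} := by
    rintro _ ⟨α, hα, rfl⟩
    exact h α hα
  exact closure_minimal hsub hcl hx

theorem numTrivial_le_ker {ι κ : Type} [Fintype κ] {S : Set (PS ι)} {φ : PS ι → PS κ}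
    (hφ : IsEmbeddingOn S φ) {α : Cycles S} (hα : α ∈ numTrivial S) : cycleDegree S φ α = 0 := by
  simp only [numTrivial, Submodule.mem_iInf, LinearMap.mem_ker] at hα
  exact hα κ inferInstance φ hφ

theorem cycleDegree_eq {ι κ : Type} (S : Set (PS ι)) (φ : PS ι → PS κ) (α : Cycles S) :
    cycleDegree S φ α = α.sum fun C a => a * degree (φ '' C.1) := by
  simp [cycleDegree, Finsupp.lsum_apply]

theorem image_ne {d : ℕ} (c : Fin (d + 1) × Mon d → ℂ)
    (hc : ∀ y : Fin 4 → ℂ, y ≠ 0 → ∃ i, cf c i y ≠ 0) :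
    push (member_subset c) '' Eff1 (member c) ≠ Eff1 Y := by
  intro himg
  let l0 : Cycles Y →ₗ[ℝ] ℝ := (slo d : ℝ) • cycleDegree Y T12.phi - cycleDegree Y T21.phi
  have hker : numTrivial Y ≤ LinearMap.ker l0 := by
    intro α hα
    rw [LinearMap.mem_ker]
    simp only [l0, LinearMap.sub_apply, LinearMap.smul_apply]
    rw [numTrivial_le_ker T12.isEmbedding hα, numTrivial_le_ker T21.isEmbedding hα]
    simp
  let l : N1 Y →ₗ[ℝ] ℝ := (numTrivial Y).liftQ l0 hker
  let R : {C : Set (PS (Fin 2 × Fin 4)) // IsCurve C ∧ C ⊆ Y} := ⟨Rul, Rul_curve, Rul_sub⟩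
  let r : N1 Y := (numTrivial Y).mkQ (Finsupp.single R 1)
  have hr : r ∈ Eff1 Y := by
    letI : TopologicalSpace (N1 Y) := moduleTopology ℝ (N1 Y)
    refine subset_closure ⟨Finsupp.single R 1, ?_, rfl⟩
    intro C
    rw [Finsupp.single_apply]
    split_ifs <;> norm_num
  rw [← himg] at hr
  obtain ⟨x, hx, hxr⟩ := hr
  have h1 : 0 ≤ (l.comp (push (member_subset c))) x := by
    refine Eff1_nonneg _ ?_ hx
    intro α hα
    have h2 : (l.comp (push (member_subset c))) ((numTrivial (member c)).mkQ α) =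
        (slo d : ℝ) * cycleDegree (member c) T12.phi α - cycleDegree (member c) T21.phi α := by
      have h3 : (l.comp (push (member_subset c))) ((numTrivial (member c)).mkQ α) =
          l0 (pushCycles (member_subset c) α) := by
        simp [l, push]
      rw [h3]
      simp only [l0, LinearMap.sub_apply, LinearMap.smul_apply, smul_eq_mul]
      rw [cycleDegree_push, cycleDegree_push]
    rw [h2, cycleDegree_eq, cycleDegree_eq, Finsupp.mul_sum, sub_nonneg]
    unfold Finsupp.sum
    apply Finset.sum_le_sum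
    intro C hC
    have h4 := deg_le c hc C.2.2 C.2.1
    have h5 := hα C
    calc α C * degree (T21.phi '' C.1) ≤ α C * (slo d * degree (T12.phi '' C.1)) :=
          mul_le_mul_of_nonneg_left h4 h5
      _ = _ := by ring
  rw [LinearMap.comp_apply, hxr] at h1
  have h6 : l r = slo d - 2 := by
    have : l r = l0 (Finsupp.single R 1) := by simp [l, r]
    rw [this]
    simp only [l0, LinearMap.sub_apply, LinearMap.smul_apply, smul_eq_mul]
    rw [cycleDegree_eq, cycleDegree_eq, Finsupp.sum_single_index (by simp),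
      Finsupp.sum_single_index (by simp)]
    show (slo d : ℝ) * (1 * degree (T12.phi '' Rul)) - 1 * degree (T21.phi '' Rul) = _
    rw [degree_Rul, degree_Rul]
    push_cast
    ring
  rw [h6] at h1
  linarith [slo_lt d]

end Pool.Agent.TH177.EC
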