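import Pool.Agent.TH177.EC.Dom

set_option autoImplicit false

open scoped LinearAlgebra.Projectivization
open MvPolynomial

namespace Pool.Agent.TH177.EC

/-- the first basis vector -/
def e0 : Fin 4 → ℂ := fun j => if j = 0 then 1 else 0

theorem e0_ne : e0 ≠ 0 := by
  intro h
  have := congrFun h 0
  simp [e0] at this

/-- The fibre of `Y → P³` over the first coordinate point. -/
def Rul : Set (PS (Fin 2 × Fin 4)) :=
  {x | ∃ (s : Fin 2 → ℂ) (h : segre s e0 ≠ 0), x = Projectivization.mk ℂ (segre s e0) h}

theorem Rul_sub : Rul ⊆ Y := by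
  rintro x ⟨s, h, rfl⟩
  exact ⟨s, e0, h, rfl⟩

theorem mem_cone_Rul (v : Fin 2 × Fin 4 → ℂ) (hv : v ≠ 0) :
    v ∈ cone Rul ↔ ∀ q : Fin 2 × Fin 4, q.2 ≠ 0 → v q = 0 := by
  constructor
  · rintro ⟨h, s, h', he⟩ q hq
    rw [Projectivization.mk_eq_mk_iff'] at he
    obtain ⟨a, ha⟩ := he
    rw [← ha]
    simp [segre, e0, hq]
  · intro h
    have h1 : v = segre (fun i => v (i, 0)) e0 := by
      funext q
      obtain ⟨i, j⟩ := q
      simp only [segre, e0]
      by_cases hj : j = 0
      · subst hj; simp
      · rw [if_neg hj, mul_zero]; exact h (i, j) hj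
    refine ⟨hv, _, h1 ▸ hv, ?_⟩
    congr 1

theorem mem_hat_Rul (p : (Fin 2 → ℂ) × (Fin 4 → ℂ)) :
    p ∈ hat Rul ↔ p.1 ≠ 0 ∧ p.2 0 ≠ 0 ∧ ∀ j, j ≠ 0 → p.2 j = 0 := by
  constructor
  · intro hp
    have h0 := hp.1
    have h1 : segre p.1 p.2 ∈ cone Rul := hp
    rw [mem_cone_Rul _ h0] at h1
    obtain ⟨i, j, hi, hj⟩ := exists_coord h0
    have h2 : ∀ j, j ≠ 0 → p.2 j = 0 := by
      intro j hj
      have := h1 (i, j) hj
      simp only [segre, mul_eq_zero] at this
      exact this.resolve_left hi
    refine ⟨left_ne_zero h0, ?_, h2⟩
    by_cases hj0 : j = 0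
    · subst hj0; exact hj
    · exact absurd (h2 j hj0) hj
  · rintro ⟨h1, h2, h3⟩
    have h4 : p.2 ≠ 0 := fun h => h2 (congrFun h 0)
    show segre p.1 p.2 ∈ cone Rul
    rw [mem_cone_Rul _ (segre_ne_zero h1 h4)]
    intro q hq
    simp [segre, h3 q.2 hq]

theorem Rul_closed : IsClosedSet Rul := by
  refine ⟨{f | ∃ q : Fin 2 × Fin 4, q.2 ≠ 0 ∧ f = X q}, ?_, ?_⟩
  · rintro f ⟨q, hq, rfl⟩
    exact ⟨1, isHomogeneous_X _ _⟩
  · intro v hv
    rw [mem_cone_Rul v hv]
    constructor
    · rintro h f ⟨q, hq, rfl⟩
      rw [eval_X]; exact h q hq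
    · intro h q hq
      have := h (X q) ⟨q, hq, rfl⟩
      rwa [eval_X] at this

theorem vec_ne (t : ℂ) : (fun i : Fin 2 => if i = 0 then (1 : ℂ) else t) ≠ 0 := by
  intro h
  have := congrFun h 0
  simp at this

/-- the point with coordinate `t` on the ruling -/
noncomputable def pt (t : ℂ) : PS (Fin 2 × Fin 4) :=
  Projectivization.mk ℂ (segre (fun i => if i = 0 then 1 else t) e0) (segre_ne_zero (vec_ne t) e0_ne)

theorem pt_inj : Function.Injective pt := by
  intro t t' h
  unfold pt at h
  rw [Projectivization.mk_eq_mk_iff'] at h
  obtain ⟨a, ha⟩ := h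
  have h1 := congrFun ha (0, 0)
  have h2 := congrFun ha (1, 0)
  simp [segre, e0] at h1 h2
  rw [h1, one_mul] at h2
  exact h2.symm

theorem pt_mem (t : ℂ) : pt t ∈ Rul := ⟨_, _, rfl⟩

theorem Rul_curve : IsCurve Rul := by
  refine ⟨Rul_closed, ?_, ?_⟩
  · exact (Set.infinite_range_of_injective pt_inj).mono (by rintro _ ⟨t, rfl⟩; exact pt_mem t)
  · intro D hD hne hcl
    obtain ⟨T, hT1, hT2⟩ := hcl
    obtain ⟨x, hx, hxD⟩ : ∃ x ∈ Rul, x ∉ D := by
      by_contra hcon
      push Not at hcon
      exact hne (Set.Subset.antisymm hD hcon)
    obtain ⟨s', h', rfl⟩ := hx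
    have h1 : ¬ (segre s' e0 ∈ cone D) := fun h => hxD h.2
    rw [hT2 _ h'] at h1
    push Not at h1
    obtain ⟨f, hf, hf0⟩ := h1
    obtain ⟨n, hn⟩ := hT1 f hf
    -- the polynomial `f((1, t) ⊗ e0)`
    let P : Polynomial ℂ := aeval (fun q : Fin 2 × Fin 4 =>
      if q.2 = 0 then (if q.1 = 0 then (1 : Polynomial ℂ) else Polynomial.X) else 0) f
    have hP : ∀ t : ℂ, P.eval t = eval (segre (fun i => if i = 0 then 1 else t) e0) f := by
      intro t
      have e : (Polynomial.evalRingHom t).comp
          (aeval (R := ℂ) (fun q : Fin 2 × Fin 4 =>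
            if q.2 = 0 then (if q.1 = 0 then (1 : Polynomial ℂ) else Polynomial.X) else 0) :
            MvPolynomial (Fin 2 × Fin 4) ℂ →+* Polynomial ℂ) =
          eval (segre (fun i => if i = 0 then 1 else t) e0) := by
        apply MvPolynomial.ringHom_ext
        · intro r; simp
        · rintro ⟨i, j⟩
          simp only [RingHom.coe_comp, Function.comp_apply, RingHom.coe_coe, aeval_X, eval_X, segre,
            e0]
          split_ifs <;> simp
      exact congrFun (congrArg DFunLike.coe e) f
    have hP0 : P ≠ 0 := by
      intro h0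
      apply hf0
      have h2 : ∀ t : ℂ, eval (segre (fun i => if i = 0 then 1 else t) e0) f = 0 := by
        intro t; rw [← hP, h0, Polynomial.eval_zero]
      have h3 : ∀ s : Fin 2 → ℂ, s 0 ≠ 0 → eval (segre s e0) f = 0 := by
        intro s hs
        have e : segre s e0 = s 0 • segre (fun i => if i = 0 then 1 else s 1 / s 0) e0 := by
          rw [← segre_smul_left]
          congr 1
          funext i
          fin_cases i
          · simp
          · simp; field_simp
        rw [e, eval_smul_hom f n hn, h2, mul_zero]
      by_cases hs : s' 0 = 0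
      · -- by continuity
        let Q : Polynomial ℂ := aeval (fun q : Fin 2 × Fin 4 =>
          if q.2 = 0 then (if q.1 = 0 then (Polynomial.X : Polynomial ℂ) else Polynomial.C (s' 1))
            else 0) f
        have hQ : ∀ t : ℂ, Q.eval t = eval (segre (fun i => if i = 0 then t else s' 1) e0) f := by
          intro t
          have e : (Polynomial.evalRingHom t).comp
              (aeval (R := ℂ) (fun q : Fin 2 × Fin 4 =>
                if q.2 = 0 then (if q.1 = 0 then (Polynomial.X : Polynomial ℂ)
                  else Polynomial.C (s' 1)) else 0) :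
                MvPolynomial (Fin 2 × Fin 4) ℂ →+* Polynomial ℂ) =
              eval (segre (fun i => if i = 0 then t else s' 1) e0) := by
            apply MvPolynomial.ringHom_ext
            · intro r; simp
            · rintro ⟨i, j⟩
              simp only [RingHom.coe_comp, Function.comp_apply, RingHom.coe_coe, aeval_X, eval_X,
                segre, e0]
              split_ifs <;> simp
          exact congrFun (congrArg DFunLike.coe e) f
        have hQ0 : Q = 0 := by
          by_contra hQ0
          have hfin : {t : ℂ | t ≠ 0}.Finite := by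
            refine (Q.roots.toFinset.finite_toSet).subset ?_
            intro t ht
            simp only [Finset.mem_coe, Multiset.mem_toFinset]
            rw [Polynomial.mem_roots hQ0, Polynomial.IsRoot, hQ]
            exact h3 _ (by simpa using ht)
          exact (Set.finite_singleton (0 : ℂ)).infinite_compl hfin
        have h4 := hQ 0
        rw [hQ0, Polynomial.eval_zero] at h4
        have e : segre s' e0 = segre (fun i => if i = 0 then 0 else s' 1) e0 := by
          congr 1
          funext i
          fin_cases i
          · simpa using hs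
          · simp
        rw [e, ← h4]
      · exact h3 s' hs
    have hsub : D ⊆ (pt '' {t : ℂ | P.eval t = 0}) ∪
        {x | ∃ h : segre (fun i => if i = 0 then 0 else 1) e0 ≠ 0,
          x = Projectivization.mk ℂ (segre (fun i => if i = 0 then 0 else 1) e0) h} := by
      intro x hx
      obtain ⟨s, h, rfl⟩ := hD hx
      have h2 : segre s e0 ∈ cone D := ⟨h, hx⟩
      have h3 := (hT2 _ h).mp h2 f hf
      by_cases hs : s 0 = 0
      · right
        have hs1 : s 1 ≠ 0 := by
          intro hs1
          apply left_ne_zero h
          funext i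
          fin_cases i
          · exact hs
          · exact hs1
        refine ⟨segre_ne_zero ?_ e0_ne, ?_⟩
        · intro h0
          have := congrFun h0 1
          simp at this
        · rw [Projectivization.mk_eq_mk_iff']
          refine ⟨s 1, ?_⟩
          rw [← segre_smul_left]
          congr 1
          funext i
          fin_cases i
          · simp [hs]
          · simp
      · left
        refine ⟨s 1 / s 0, ?_, ?_⟩
        · rw [Set.mem_ofPred_eq, hP]
          have e : segre s e0 = s 0 • segre (fun i => if i = 0 then 1 else s 1 / s 0) e0 := by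
            rw [← segre_smul_left]
            congr 1
            funext i
            fin_cases i
            · simp
            · simp; field_simp
          rw [e, eval_smul_hom f n hn, mul_eq_zero] at h3
          exact h3.resolve_left (pow_ne_zero _ hs)
        · unfold pt
          rw [Projectivization.mk_eq_mk_iff']
          refine ⟨(s 0)⁻¹, ?_⟩
          rw [← segre_smul_left]
          congr 1
          funext i
          fin_cases i
          · simp [hs]
          · simp; field_simp
    refine Set.Finite.subset (Set.Finite.union ?_ ?_) hsub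
    · apply Set.Finite.image
      refine (P.roots.toFinset.finite_toSet).subset ?_
      intro t ht
      simp only [Finset.mem_coe, Multiset.mem_toFinset]
      rw [Polynomial.mem_roots hP0]
      exact ht
    · apply Set.Subsingleton.finite
      rintro x ⟨h, rfl⟩ y ⟨h', rfl⟩
      rfl

/-- the dimensions for the ruling -/
theorem w_Rul (m n : ℕ) : w Rul m n = m + 1 := by
  classical
  -- an isomorphism with the space of coefficients
  let L : (Fin (m + 1) → ℂ) →ₗ[ℂ] (hat Rul → ℂ) :=
    { toFun := fun c p => ∑ i : Fin (m + 1), c i * (p.1.1 0 ^ (i : ℕ) * p.1.1 1 ^ (m - (i : ℕ)) *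
        p.1.2 0 ^ n)
      map_add' := by
        intro c c'
        funext p
        simp only [Pi.add_apply, add_mul, Finset.sum_add_distrib]
      map_smul' := by
        intro a c
        funext p
        simp only [Pi.smul_apply, smul_eq_mul, RingHom.id_apply, Finset.mul_sum, mul_assoc] }
  have hinj : Function.Injective L := by
    rw [← LinearMap.ker_eq_bot, LinearMap.ker_eq_bot']
    intro c hc
    -- a polynomial with infinitely many zeros
    let P : Polynomial ℂ := ∑ i : Fin (m + 1), Polynomial.C (c i) * Polynomial.X ^ (i : ℕ)
    have hP : ∀ t : ℂ, P.eval t = 0 := by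
      intro t
      have hp : ((fun i : Fin 2 => if i = 0 then t else (1 : ℂ)), e0) ∈ hat Rul := by
        rw [mem_hat_Rul]
        refine ⟨?_, by simp [e0], fun j hj => by simp [e0, hj]⟩
        intro h
        have := congrFun h 1
        simp at this
      have h1 := congrFun hc ⟨_, hp⟩
      simp only [L, LinearMap.coe_mk, AddHom.coe_mk, Pi.zero_apply] at h1
      simp only [P, Polynomial.eval_finsetSum, Polynomial.eval_mul, Polynomial.eval_C,
        Polynomial.eval_pow, Polynomial.eval_X]
      simpa [e0] using h1
    have hP0 : P = 0 := Polynomial.funext (by intro t; rw [hP, Polynomial.eval_zero])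
    funext i
    have h2 := congrArg (fun Q => Polynomial.coeff Q (i : ℕ)) hP0
    simp only [P, Polynomial.finsetSum_coeff, Polynomial.coeff_C_mul, Polynomial.coeff_X_pow,
      Polynomial.coeff_zero] at h2
    rw [Finset.sum_eq_single i] at h2
    · simpa using h2
    · intro j _ hj
      rw [if_neg (fun h => hj (Fin.ext h.symm)), mul_zero]
    · intro h; exact absurd (Finset.mem_univ _) h
  have hrange : LinearMap.range L = W Rul m n := by
    apply le_antisymm
    · rintro _ ⟨c, rfl⟩
      refine ⟨∑ i : Fin (m + 1), c i • mon (fun k => if k = 0 then (i : ℕ) else m - (i : ℕ))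
        (fun j => if j = 0 then n else 0), ?_, ?_⟩
      · apply Submodule.sum_mem
        intro i _
        apply Submodule.smul_mem
        apply mon_mem
        · rw [Fin.sum_univ_two]
          have := i.2
          simp
          omega
        · simp
      · funext p
        simp only [res_apply, Finset.sum_apply, Pi.smul_apply, smul_eq_mul, L, LinearMap.coe_mk,
          AddHom.coe_mk, mon, Fin.prod_univ_two]
        apply Finset.sum_congr rfl
        intro i _
        have h1 : ∏ j : Fin 4, p.1.2 j ^ (if j = 0 then n else 0) = p.1.2 0 ^ n := by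
          rw [Finset.prod_eq_single 0]
          · simp
          · intro j _ hj; simp [hj]
          · intro h; exact absurd (Finset.mem_univ _) h
        rw [h1]
        simp
    · unfold W Wt
      rw [Submodule.map_span_le]
      rintro f ⟨α, β, h1, h2, rfl⟩
      rw [Fin.sum_univ_two] at h1
      by_cases hβ : ∀ j, j ≠ 0 → β j = 0
      · have hβ0 : β 0 = n := by
          rw [← h2, Finset.sum_eq_single 0]
          · intro j _ hj; exact hβ j hj
          · intro h; exact absurd (Finset.mem_univ _) h
        refine ⟨Pi.single ⟨α 0, by omega⟩ 1, ?_⟩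
        funext p
        simp only [res_apply, L, LinearMap.coe_mk, AddHom.coe_mk, mon, Fin.prod_univ_two]
        rw [Finset.sum_eq_single ⟨α 0, by omega⟩]
        · have h3 : ∏ j : Fin 4, p.1.2 j ^ β j = p.1.2 0 ^ n := by
            rw [Finset.prod_eq_single 0]
            · rw [hβ0]
            · intro j _ hj; rw [hβ j hj, pow_zero]
            · intro h; exact absurd (Finset.mem_univ _) h
          rw [h3]
          have h4 : m - α 0 = α 1 := by omega
          simp [h4]
        · intro j _ hj
          rw [Pi.single_eq_of_ne hj, zero_mul]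
        · intro h; exact absurd (Finset.mem_univ _) h
      · push Not at hβ
        obtain ⟨j, hj, hβj⟩ := hβ
        have : res Rul (mon α β) = 0 := by
          rw [res_eq_zero]
          intro p hp
          rw [mem_hat_Rul] at hp
          unfold mon
          rw [Finset.prod_eq_zero (i := j) (s := Finset.univ (α := Fin 4)) (Finset.mem_univ _)
            (by rw [hp.2.2 j hj, zero_pow hβj]), mul_zero]
        rw [this]
        exact zero_mem _
  unfold w
  rw [← hrange, LinearMap.finrank_range_of_inj hinj]
  simp

end Pool.Agent.TH177.EC
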